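import Pool.Agent.Lib.MP_df5da3_co.Num

set_option autoImplicit false
set_option linter.unusedSectionVars false

namespace Pool.Agent.Lib.MP_df5da3_co

open Finset

/-- A symmetric irreflexive ternary relation without two different splittings of a six-set. -/
structure Good {V : Type*} (E : V → V → V → Prop) : Prop where
  s12 : ∀ {x y z : V}, E x y z → E y x z
  s23 : ∀ {x y z : V}, E x y z → E x z y
  ne : ∀ {x y z : V}, E x y z → x ≠ y
  int : ∀ {p q r s c d : V}, E p q c → E p q d → E r s c → E r s d → c ≠ d →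
    p = r ∨ p = s ∨ q = r ∨ q = s

namespace Good

variable {V : Type*} {E : V → V → V → Prop} (g : Good E)
include g

lemma r {x y z : V} (h : E x y z) : E y z x := g.s23 (g.s12 h)
lemma r2 {x y z : V} (h : E x y z) : E z x y := g.r (g.r h)
lemma s13 {x y z : V} (h : E x y z) : E z y x := g.s12 (g.r h)
lemma ne13 {x y z : V} (h : E x y z) : x ≠ z := g.ne (g.s23 h)
lemma ne23 {x y z : V} (h : E x y z) : y ≠ z := g.ne (g.r h)

/-- the basic structural fact -/
lemma str {x y c d a b : V} (hcd : c ≠ d)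
    (hac : E x c a) (had : E x d a) (hay : a ≠ y) (hbc : E y c b) (hbd : E y d b) (hbx : b ≠ x)
    (hxy : x ≠ y) : a = b := by
  rcases g.int (g.s23 hac) (g.s23 had) (g.s23 hbc) (g.s23 hbd) hcd with h | h | h | h
  · exact absurd h hxy
  · exact absurd h.symm hbx
  · exact absurd h hay
  · exact h

end Good

section defs

variable {V : Type*} [Fintype V] [DecidableEq V] (E : V → V → V → Prop)

open Classical in
/-- neighbourhood of a pair -/
noncomputable def N (x y : V) : Finset V := univ.filter (fun u => E x y u)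

open Classical in
/-- common neighbours of `c` and `d` in the link of `s` -/
noncomputable def cn (s c d : V) : Finset V := univ.filter (fun y => E s c y ∧ E s d y)

open Classical in
/-- ordered pairs completed by both `c` and `d` -/
noncomputable def GO (c d : V) : Finset (V × V) :=
  univ.filter (fun p => E p.1 p.2 c ∧ E p.1 p.2 d)

/-- apexes -/
noncomputable def Ap (x y c d : V) : Finset V := cn E x c d ∩ cn E y c d

open Classical in
/-- vertices completing all three pairs of `x, y, a` -/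
noncomputable def K3 (x y a : V) : Finset V := univ.filter (fun c => E x y c ∧ E x a c ∧ E y a c)

/-- weight for a triangular pair with `k` completing vertices -/
def Fk (k s t : ℕ) : ℚ := if 3 ≤ k then 1 / 3 else F s t

/-- the charge sent by the pair `c, d` to the pair `x, y` -/
noncomputable def W (x y c d : V) : ℚ :=
  if Ap E x y c d = ∅ then 1 / ((GO E c d).card : ℚ)
  else ∑ a ∈ Ap E x y c d, Fk (K3 E x y a).card ((GO E x a).card / 2) ((GO E y a).card / 2) / 2

variable {E}

@[simp] lemma mem_N {x y u : V} : u ∈ N E x y ↔ E x y u := by simp [N]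
@[simp] lemma mem_cn {s c d y : V} : y ∈ cn E s c d ↔ E s c y ∧ E s d y := by simp [cn]
@[simp] lemma mem_GO {c d : V} {p : V × V} : p ∈ GO E c d ↔ E p.1 p.2 c ∧ E p.1 p.2 d := by
  simp [GO]
@[simp] lemma mem_Ap {x y c d a : V} :
    a ∈ Ap E x y c d ↔ (E x c a ∧ E x d a) ∧ (E y c a ∧ E y d a) := by simp [Ap]
@[simp] lemma mem_K3 {x y a c : V} : c ∈ K3 E x y a ↔ E x y c ∧ E x a c ∧ E y a c := by simp [K3]

lemma cn_comm (s c d : V) : cn E s c d = cn E s d c := by
  ext y; simp only [mem_cn]; tauto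

lemma GO_comm (c d : V) : GO E c d = GO E d c := by
  ext y; simp only [mem_GO]; tauto

lemma Ap_comm (x y c d : V) : Ap E x y c d = Ap E y x c d := by
  ext a; simp only [mem_Ap]; tauto

lemma Fk_comm (k s t : ℕ) : Fk k s t = Fk k t s := by
  unfold Fk
  rw [F_comm]

variable (g : Good E)
include g

lemma N_comm (x y : V) : N E x y = N E y x := by
  ext u; simp only [mem_N]; exact ⟨g.s12, g.s12⟩

lemma K3_comm12 (x y a : V) : K3 E x y a = K3 E y x a := by
  ext c; simp only [mem_K3]
  constructor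
  · rintro ⟨h1, h2, h3⟩; exact ⟨g.s12 h1, h3, h2⟩
  · rintro ⟨h1, h2, h3⟩; exact ⟨g.s12 h1, h3, h2⟩

lemma K3_comm23 (x y a : V) : K3 E x y a = K3 E x a y := by
  ext c; simp only [mem_K3]
  constructor
  · rintro ⟨h1, h2, h3⟩; exact ⟨h2, h1, g.s12 h3⟩
  · rintro ⟨h1, h2, h3⟩; exact ⟨h2, h1, g.s12 h3⟩

lemma W_comm (x y c d : V) : W E x y c d = W E y x c d := by
  unfold W
  rw [Ap_comm x y c d]
  congr 1
  apply Finset.sum_congr rfl
  intro a _
  rw [K3_comm12 g x y a, Fk_comm]

/-- in the triangular situation the common neighbourhoods are pairs -/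
lemma cn_of_ap {x y c d a : V} (hc : E x y c) (hd : E x y d) (hcd : c ≠ d)
    (ha : a ∈ Ap E x y c d) : cn E x c d = {y, a} := by
  rw [mem_Ap] at ha
  obtain ⟨⟨h1, h2⟩, h3, h4⟩ := ha
  ext b
  simp only [mem_cn, mem_insert, mem_singleton]
  constructor
  · rintro ⟨hb1, hb2⟩
    by_cases hby : b = y
    · exact Or.inl hby
    · right
      exact g.str hcd hb1 hb2 hby h3 h4 (g.ne13 h1).symm (g.ne hc)
  · rintro (rfl | rfl)
    · exact ⟨g.s23 hc, g.s23 hd⟩
    · exact ⟨h1, h2⟩

lemma ap_unique {x y c d a b : V} (hc : E x y c) (hcd : c ≠ d)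
    (ha : a ∈ Ap E x y c d) (hb : b ∈ Ap E x y c d) : b = a := by
  rw [mem_Ap] at ha hb
  exact g.str hcd hb.1.1 hb.1.2 (g.ne13 hb.2.1).symm ha.2.1 ha.2.2 (g.ne13 ha.1.1).symm (g.ne hc)

lemma ap_eq {x y c d a : V} (hc : E x y c) (hcd : c ≠ d)
    (ha : a ∈ Ap E x y c d) : Ap E x y c d = {a} := by
  ext b
  rw [mem_singleton]
  constructor
  · intro hb
    exact ap_unique g hc hcd ha hb
  · rintro rfl
    exact ha

/-- if one side is trivial there is no apex -/
lemma ap_empty_of_single {y z x u : V} (hs : cn E y x u = {z}) :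
    Ap E y z x u = ∅ := by
  rw [Finset.eq_empty_iff_forall_notMem]
  intro a ha
  have h1 : a ∈ cn E y x u := by
    rw [mem_Ap] at ha; rw [mem_cn]; exact ha.1
  rw [hs, mem_singleton] at h1
  rw [mem_Ap] at ha
  exact g.ne13 ha.2.1 h1.symm

/-- number of ordered pairs in a star situation -/
lemma GO_card_single {x y z u : V} (hx : E y z x) (hu : E y z u) (hxu : x ≠ u)
    (hs : cn E y x u = {z}) : (GO E x u).card = 2 * (cn E z x u).card := by
  have h1 : GO E x u = (cn E z x u).image (fun q => (z, q)) ∪ (cn E z x u).image (fun q => (q, z)) := by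
    ext ⟨p, q⟩
    simp only [mem_GO, mem_union, mem_image, mem_cn, Prod.mk.injEq]
    constructor
    · rintro ⟨h1, h2⟩
      rcases g.int h1 h2 hx hu hxu with h | h | h | h
      · subst h
        have : q ∈ cn E p x u := by rw [mem_cn]; exact ⟨g.s23 h1, g.s23 h2⟩
        rw [hs, mem_singleton] at this
        subst this
        right
        exact ⟨p, ⟨g.s23 (g.s12 h1), g.s23 (g.s12 h2)⟩, rfl, rfl⟩
      · subst h
        left
        exact ⟨q, ⟨g.s23 h1, g.s23 h2⟩, rfl, rfl⟩
      · subst h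
        have : p ∈ cn E q x u := by rw [mem_cn]; exact ⟨g.r h1, g.r h2⟩
        rw [hs, mem_singleton] at this
        subst this
        left
        exact ⟨q, ⟨g.s23 h1, g.s23 h2⟩, rfl, rfl⟩
      · subst h
        right
        exact ⟨p, ⟨g.r h1, g.r h2⟩, rfl, rfl⟩
    · rintro (⟨a, ⟨h1, h2⟩, rfl, rfl⟩ | ⟨a, ⟨h1, h2⟩, rfl, rfl⟩)
      · exact ⟨g.s23 h1, g.s23 h2⟩
      · exact ⟨g.r2 h1, g.r2 h2⟩
  rw [h1, card_union_of_disjoint, card_image_of_injective, card_image_of_injective]
  · ring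
  · intro a b h; simpa using h
  · intro a b h; simpa using h
  · rw [Finset.disjoint_left]
    rintro ⟨p, q⟩ h2 h3
    simp only [mem_image, mem_cn, Prod.mk.injEq] at h2 h3
    obtain ⟨a, ⟨h4, _⟩, rfl, rfl⟩ := h2
    obtain ⟨b, ⟨h6, _⟩, rfl, rfl⟩ := h3
    exact g.ne13 h6 rfl

/-- in the triangular situation there are six ordered pairs -/
lemma GO_eq_tri {x y z u a : V} (hx : E y z x) (hu : E y z u) (hxu : x ≠ u)
    (ha : a ∈ Ap E y z x u) :
    GO E x u = {(y, z), (z, y), (y, a), (a, y), (z, a), (a, z)} := by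
  have c1 := cn_of_ap g hx hu hxu ha
  have ha' : a ∈ Ap E z y x u := by rw [Ap_comm]; exact ha
  have c2 := cn_of_ap g (g.s12 hx) (g.s12 hu) hxu ha'
  rw [mem_Ap] at ha
  obtain ⟨⟨h1, h2⟩, h3, h4⟩ := ha
  ext ⟨p, q⟩
  simp only [mem_GO, mem_insert, mem_singleton, Prod.mk.injEq]
  constructor
  · rintro ⟨h5, h6⟩
    rcases g.int h5 h6 hx hu hxu with h | h | h | h
    · subst h
      have : q ∈ cn E p x u := by rw [mem_cn]; exact ⟨g.s23 h5, g.s23 h6⟩
      rw [c1, mem_insert, mem_singleton] at this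
      rcases this with h | h <;> simp [h]
    · subst h
      have : q ∈ cn E p x u := by rw [mem_cn]; exact ⟨g.s23 h5, g.s23 h6⟩
      rw [c2, mem_insert, mem_singleton] at this
      rcases this with h | h <;> simp [h]
    · subst h
      have : p ∈ cn E q x u := by rw [mem_cn]; exact ⟨g.r h5, g.r h6⟩
      rw [c1, mem_insert, mem_singleton] at this
      rcases this with h | h <;> simp [h]
    · subst h
      have : p ∈ cn E q x u := by rw [mem_cn]; exact ⟨g.r h5, g.r h6⟩
      rw [c2, mem_insert, mem_singleton] at this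
      rcases this with h | h <;> simp [h]
  · rintro (⟨rfl, rfl⟩ | ⟨rfl, rfl⟩ | ⟨rfl, rfl⟩ | ⟨rfl, rfl⟩ | ⟨rfl, rfl⟩ | ⟨rfl, rfl⟩)
    · exact ⟨hx, hu⟩
    · exact ⟨g.s12 hx, g.s12 hu⟩
    · exact ⟨g.s23 h1, g.s23 h2⟩
    · exact ⟨g.r2 h1, g.r2 h2⟩
    · exact ⟨g.s23 h3, g.s23 h4⟩
    · exact ⟨g.r2 h3, g.r2 h4⟩

lemma GO_card_tri {x y z u a : V} (hx : E y z x) (hu : E y z u) (hxu : x ≠ u)
    (ha : a ∈ Ap E y z x u) : (GO E x u).card = 6 := by
  rw [GO_eq_tri g hx hu hxu ha]
  have hyz : y ≠ z := g.ne hx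
  rw [mem_Ap] at ha
  have hya : y ≠ a := g.ne13 ha.1.1
  have hza : z ≠ a := g.ne13 ha.2.1
  rw [card_insert_of_notMem, card_insert_of_notMem, card_insert_of_notMem, card_insert_of_notMem,
    card_insert_of_notMem, card_singleton]
  all_goals simp [hyz, hya, hza, hyz.symm, hya.symm, hza.symm]

lemma W_single {x y z u : V} (hx : E y z x) (hu : E y z u) (hxu : x ≠ u)
    (hs : cn E y x u = {z}) : W E y z x u = 1 / (2 * ((cn E z x u).card : ℚ)) := by
  unfold W
  rw [if_pos (ap_empty_of_single g hs), GO_card_single g hx hu hxu hs]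
  push_cast
  rfl

lemma W_tri {x y z u a : V} (hx : E y z x) (hxu : x ≠ u) (ha : a ∈ Ap E y z x u) :
    W E y z x u = Fk (K3 E y z a).card ((GO E y a).card / 2) ((GO E z a).card / 2) / 2 := by
  unfold W
  have h1 := ap_eq g hx hxu ha
  rw [if_neg (by rw [h1]; exact singleton_ne_empty a), h1, sum_singleton]

lemma GO_ge_four {c d y a x : V} (h1 : E y x c) (h2 : E a x c) (h3 : E y x d) (h4 : E a x d)
    (hcd : c ≠ d) : 4 ≤ (GO E y a).card := by
  have hsub : ({(x, c), (c, x), (x, d), (d, x)} : Finset (V × V)) ⊆ GO E y a := by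
    intro p hp
    simp only [mem_insert, mem_singleton] at hp
    rw [mem_GO]
    rcases hp with rfl | rfl | rfl | rfl
    · exact ⟨g.r h1, g.r h2⟩
    · exact ⟨g.s13 h1, g.s13 h2⟩
    · exact ⟨g.r h3, g.r h4⟩
    · exact ⟨g.s13 h3, g.s13 h4⟩
  refine le_trans (le_of_eq ?_) (card_le_card hsub)
  have hxc : x ≠ c := g.ne23 h1
  have hxd : x ≠ d := g.ne23 h3
  rw [card_insert_of_notMem, card_insert_of_notMem, card_insert_of_notMem, card_singleton]
  all_goals simp [hxc, hxd, hcd, hxc.symm, hxd.symm]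

/-- total charge sent by a pair -/
lemma sum_W_le (c d : V) (hcd : c ≠ d) : ∑ p ∈ GO E c d, W E p.1 p.2 c d ≤ 1 := by
  by_cases hex : ∃ p ∈ GO E c d, (Ap E p.1 p.2 c d).Nonempty
  · obtain ⟨⟨x, y⟩, hp, a, ha⟩ := hex
    simp only [mem_GO] at hp
    simp only at ha
    obtain ⟨hc, hd⟩ := hp
    rw [GO_eq_tri g hc hd hcd ha]
    have ha0 := ha
    rw [mem_Ap] at ha
    obtain ⟨⟨h1, h2⟩, h3, h4⟩ := ha
    have hxy : x ≠ y := g.ne hc
    have hxa : x ≠ a := g.ne13 h1
    have hya : y ≠ a := g.ne13 h3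
    rw [sum_insert, sum_insert, sum_insert, sum_insert, sum_insert, sum_singleton]
    · simp only
      rw [W_comm g y x c d, W_comm g a x c d, W_comm g a y c d]
      have w1 : W E x y c d = Fk (K3 E x y a).card ((GO E x a).card / 2) ((GO E y a).card / 2) / 2 :=
        W_tri g hc hcd ha0
      have w2 : W E x a c d = Fk (K3 E x a y).card ((GO E x y).card / 2) ((GO E a y).card / 2) / 2 := by
        apply W_tri g (g.s23 h1) hcd
        rw [mem_Ap]
        exact ⟨⟨g.s23 hc, g.s23 hd⟩, g.s13 h3, g.s13 h4⟩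
      have w3 : W E y a c d = Fk (K3 E y a x).card ((GO E y x).card / 2) ((GO E a x).card / 2) / 2 := by
        apply W_tri g (g.s23 h3) hcd
        rw [mem_Ap]
        exact ⟨⟨g.r hc, g.r hd⟩, g.s13 h1, g.s13 h2⟩
      rw [w1, w2, w3, ← K3_comm23 g x y a, K3_comm23 g y a x, K3_comm12 g y x a, GO_comm a y,
        GO_comm a x, GO_comm y x]
      have s1 : 2 ≤ (GO E x a).card / 2 := by
        have := GO_ge_four g hc (g.r2 h3) hd (g.r2 h4) hcd
        omega
      have s2 : 2 ≤ (GO E y a).card / 2 := by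
        have := GO_ge_four g (g.s12 hc) (g.r2 h1) (g.s12 hd) (g.r2 h2) hcd
        omega
      have s3 : 2 ≤ (GO E x y).card / 2 := by
        have := GO_ge_four g (g.s23 h1) (g.s23 h3) (g.s23 h2) (g.s23 h4) hcd
        omega
      have hF := F_sum _ _ _ s1 s2 s3
      unfold Fk
      split_ifs with hk
      · norm_num
      · have e1 := F_comm ((GO E x y).card / 2) ((GO E y a).card / 2)
        have e2 := F_comm ((GO E x y).card / 2) ((GO E x a).card / 2)
        linarith
    all_goals simp [hxy, hxa, hya, hxy.symm, hxa.symm, hya.symm]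
  · push Not at hex
    have h1 : ∀ p ∈ GO E c d, W E p.1 p.2 c d = 1 / ((GO E c d).card : ℚ) := by
      intro p hp
      unfold W
      have := hex p hp
      rw [if_pos (by simpa [Finset.not_nonempty_iff_eq_empty] using this)]
    rw [sum_congr rfl h1, sum_const, nsmul_eq_mul]
    rcases Nat.eq_zero_or_pos (GO E c d).card with h | h
    · rw [h]; norm_num
    · rw [mul_one_div_cancel]
      exact_mod_cast h.ne'

end defs

end Pool.Agent.Lib.MP_df5da3_co
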