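import Pool.Agent.Lib.MP_df5da3_co.Cases

set_option autoImplicit false
set_option linter.unusedSectionVars false

namespace Pool.Agent.Lib.MP_df5da3_co

open Finset

section defs

variable {V : Type*} [Fintype V] [DecidableEq V] {E : V → V → V → Prop}

lemma K_empty {x y z : V} (hT : T E y x z = ∅) : K E x y z = ∅ := by
  rw [eq_empty_iff_forall_notMem]
  intro q hq
  rw [mem_K] at hq
  obtain ⟨_, v, hv, _⟩ := hq
  rw [hT] at hv
  exact absurd hv (notMem_empty v)

variable (g : Good E)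
include g

/-- an apex seen from its other side -/
lemma adj_ap {x y z v q : V} (h : E x y z) (hv : v ∈ T E x y z) (h1 : E z x q) (h2 : E z v q)
    (hqy : q ≠ y) : q ∈ Ap E y z x v := by
  obtain ⟨b, hb⟩ := T_ap g h hv
  have hv' := mem_T.1 hv
  have hb' : b ∈ Ap E z y x v := by rw [Ap_comm]; exact hb
  have h3 := cn_of_ap g (g.s13 h) (g.s12 hv'.1) hv'.2.1.symm hb'
  have h4 : q ∈ cn E z x v := by rw [mem_cn]; exact ⟨h1, h2⟩
  rw [h3, mem_insert, mem_singleton] at h4
  rcases h4 with h4 | h4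
  · exact absurd h4 hqy
  · rw [h4]; exact hb

/-- the one-sided copy of an apex, with a unique two-sided neighbour -/
lemma sideU {x y z u p : V} (h : E x y z) (hu : u ∈ T E x y z) (hp : p ∈ Ap E y z x u)
    (huniq : ∀ v ∈ T E x y z, p ∈ Ap E y z x v → v = u) (hpy : p ∉ T E y x z) :
    p ∈ S E y x z ∧ W E x z y p = 1 / (2 * ((cn E z y p).card : ℚ)) ∧
      (GO E y p).card = 2 * (cn E z y p).card ∧ 2 ≤ (cn E z y p).card ∧
      (cn E z y p).card ≤ 2 + (S E x y z).card ∧
      cn E z y p ⊆ insert x (insert u (S E x y z)) := by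
  have hu' := mem_T.1 hu
  have hp' := mem_Ap.1 hp
  have hxz : E x z p := g.s12 hp'.2.1
  have hpy' : p ≠ y := (g.ne13 hp'.1.1).symm
  have huc : u ∈ cn E z y p := by
    rw [mem_cn]; exact ⟨g.s12 hu'.1, g.s23 hp'.2.2⟩
  have hxc : x ∈ cn E z y p := by
    rw [mem_cn]; exact ⟨g.s13 h, g.s23 hp'.2.1⟩
  have hc1 : cn E z y p ≠ {x} := ne_singleton huc hu'.2.1
  have hc2 : cn E x y p = {z} := by
    by_contra hcon
    exact hpy (mem_T.2 ⟨hxz, hpy', hc1, hcon⟩)
  have hsub : cn E z y p ⊆ insert x (insert u (S E x y z)) := by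
    intro v hv
    have h1 := cn_sub g (x := y) (y := x) (z := z) (u := p) hxz hpy' hv
    rw [mem_insert, mem_union] at h1
    rw [mem_insert, mem_insert]
    rcases h1 with h1 | h1 | h1
    · exact Or.inl h1
    · exact Or.inr (Or.inr h1)
    · right; left
      rw [mem_cn] at hv
      exact huniq v h1 (adj_ap g h h1 hp'.2.1 (g.s23 hv.2) hpy')
  refine ⟨mem_S.2 ⟨hxz, hpy', hc1, hc2⟩, W_single g (g.s23 h) hxz hpy'.symm hc2,
    GO_card_single g (g.s23 h) hxz hpy'.symm hc2, ?_, ?_, ?_⟩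
  · have hsub : ({x, u} : Finset V) ⊆ cn E z y p := by
      intro v hv
      rw [mem_insert, mem_singleton] at hv
      rcases hv with rfl | rfl
      · exact hxc
      · exact huc
    have := card_le_card hsub
    rw [card_pair hu'.2.1.symm] at this
    exact this
  · have h1 := card_le_card hsub
    have h2 := card_insert_le x (insert u (S E x y z))
    have h3 := card_insert_le u (S E x y z)
    omega
  · exact hsub

lemma fk_two {x y z u p : V} (hp : p ∈ Ap E y z x u)
    (huniq : ∀ v ∈ T E x y z, p ∈ Ap E y z x v → v = u) (s t : ℕ) :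
    Fk (K3 E y z p).card s t = F s t := by
  have hp' := mem_Ap.1 hp
  have hsub : K3 E y z p ⊆ {x, u} := by
    intro c hc
    rw [mem_K3] at hc
    rw [mem_insert, mem_singleton]
    by_cases hcx : c = x
    · exact Or.inl hcx
    · right
      have h1 : p ∈ Ap E y z x c := by
        rw [mem_Ap]
        exact ⟨⟨hp'.1.1, g.s23 hc.2.1⟩, hp'.2.1, g.s23 hc.2.2⟩
      exact huniq c (T_of_ap g hc.1 hcx h1) h1
  have h1 := card_le_card hsub
  have h2 := card_le_two (a := x) (b := u)
  unfold Fk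
  rw [if_neg (by omega)]

/-- emptiness of the neighbouring set in the swapped situation -/
lemma swap_empty {x y z u v : V} (h : E x y z) (hu : u ∈ T E x y z) (hv : v ∈ T E x y z)
    (hav : v ∈ Ap E y z x u) (hau : u ∈ Ap E y z x v)
    (huy : u ∉ T E y x z) (hvy : v ∉ T E y x z) : T E y x z = ∅ := by
  rw [eq_empty_iff_forall_notMem]
  intro q hq
  obtain ⟨b, hb⟩ := T_ap g (g.s12 h) hq
  have hq' := mem_T.1 hq
  have hb' := mem_Ap.1 hb
  have hu' := mem_T.1 hu
  have hv' := mem_T.1 hv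
  have hau' := mem_Ap.1 hau
  have hav' := mem_Ap.1 hav
  have hxz : x ≠ z := g.ne13 h
  have huv : u ≠ v := g.ne23 hav'.1.2
  have hby : y ≠ b := g.ne23 hb'.1.1
  have h1 := g.int (p := q) (q := b) (r := y) (s := u) (c := x) (d := z)
      (g.r hb'.1.2) (g.r hb'.2.2) (g.s23 hau'.1.1) (g.s23 hu'.1) hxz
  have h2 := g.int (p := q) (q := b) (r := y) (s := v) (c := x) (d := z)
      (g.r hb'.1.2) (g.r hb'.2.2) (g.s23 hav'.1.1) (g.s23 hv'.1) hxz
  have h3 : q = u ∨ b = u := by
    rcases h1 with h1 | h1 | h1 | h1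
    · exact absurd h1 hq'.2.1
    · exact Or.inl h1
    · exact absurd h1.symm hby
    · exact Or.inr h1
  have h4 : q = v ∨ b = v := by
    rcases h2 with h1 | h1 | h1 | h1
    · exact absurd h1 hq'.2.1
    · exact Or.inl h1
    · exact absurd h1.symm hby
    · exact Or.inr h1
  rcases h3 with h3 | h3
  · subst h3; exact huy hq
  · rcases h4 with h4 | h4
    · subst h4; exact hvy hq
    · exact huv (h3.symm.trans h4)

/-- members of the two-sided set in the swapped situation -/
lemma swap_mem {x y z u v q : V} (h : E x y z) (hu : u ∈ T E x y z) (hv : v ∈ T E x y z)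
    (hav : v ∈ Ap E y z x u) (hau : u ∈ Ap E y z x v) (hq : q ∈ T E x y z) :
    q = u ∨ q = v := by
  obtain ⟨b, hb⟩ := T_ap g h hq
  have huv : u ≠ v := g.ne23 (mem_Ap.1 hav).1.2
  by_cases hbv : b = v
  · subst hbv
    have := two_apex g h hv hq hau hb huv
    exact Or.inl this.2.symm
  · have := two_apex g h hu hq hav hb (fun h => hbv h.symm)
    exact Or.inr this.2.symm

lemma case_swap {x y z u v : V} (h : E x y z) (hu : u ∈ T E x y z) (hv : v ∈ T E x y z)
    (hav : v ∈ Ap E y z x u) (hau : u ∈ Ap E y z x v)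
    (huy : u ∉ T E y x z) (hvy : v ∉ T E y x z) (huz : u ∉ T E z x y) (hvz : v ∉ T E z x y) :
    2 ≤ w E y z x + w E z x y + w E x y z := by
  have huv : u ≠ v := g.ne23 (mem_Ap.1 hav).1.2
  have hmem := fun q (hq : q ∈ T E x y z) => swap_mem g h hu hv hav hau hq
  have hTx : T E x y z = {u, v} := by
    ext q
    rw [mem_insert, mem_singleton]
    constructor
    · exact hmem q
    · rintro (rfl | rfl)
      · exact hu
      · exact hv
  have h' : E x z y := g.s23 h
  have hu2 : u ∈ T E x z y := by rw [← T_comm g]; exact hu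
  have hv2 : v ∈ T E x z y := by rw [← T_comm g]; exact hv
  have hav2 : v ∈ Ap E z y x u := by rw [Ap_comm]; exact hav
  have hau2 : u ∈ Ap E z y x v := by rw [Ap_comm]; exact hau
  have hTy : T E y x z = ∅ := swap_empty g h hu hv hav hau huy hvy
  have hTz : T E z x y = ∅ := swap_empty g h' hu2 hv2 hav2 hau2 huz hvz
  have nself : ∀ {q : V}, q ∉ Ap E y z x q := by
    intro q hq
    exact g.ne23 (mem_Ap.1 hq).1.2 rfl
  have uniq_u : ∀ q ∈ T E x y z, v ∈ Ap E y z x q → q = u := by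
    intro q hq hvq
    rcases hmem q hq with h1 | h1
    · exact h1
    · subst h1; exact absurd hvq nself
  have uniq_v : ∀ q ∈ T E x y z, u ∈ Ap E y z x q → q = v := by
    intro q hq hvq
    rcases hmem q hq with h1 | h1
    · subst h1; exact absurd hvq nself
    · exact h1
  have uniq_u2 : ∀ q ∈ T E x z y, v ∈ Ap E z y x q → q = u := by
    intro q hq hvq
    rw [← T_comm g] at hq
    rw [Ap_comm] at hvq
    exact uniq_u q hq hvq
  have uniq_v2 : ∀ q ∈ T E x z y, u ∈ Ap E z y x q → q = v := by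
    intro q hq hvq
    rw [← T_comm g] at hq
    rw [Ap_comm] at hvq
    exact uniq_v q hq hvq
  -- apex v of u, on both sides
  obtain ⟨a1, a2, a3, a4, a5, -⟩ := sideU g h hu hav uniq_u hvy
  obtain ⟨b1, b2, b3, b4, b5, -⟩ := sideU g h' hu2 hav2 uniq_u2 hvz
  -- apex u of v, on both sides
  obtain ⟨c1, c2, c3, c4, c5, -⟩ := sideU g h hv hau uniq_v huy
  obtain ⟨d1, d2, d3, d4, d5, -⟩ := sideU g h' hv2 hau2 uniq_v2 huz
  have hu' := mem_T.1 hu
  have hv' := mem_T.1 hv
  have hWu : W E y z x u = F (cn E z y v).card (cn E y z v).card / 2 := by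
    rw [W_tri g (g.r h) hu'.2.1.symm hav, fk_two g hav uniq_u, a3, b3]
    congr 2 <;> omega
  have hWv : W E y z x v = F (cn E z y u).card (cn E y z u).card / 2 := by
    rw [W_tri g (g.r h) hv'.2.1.symm hau, fk_two g hau uniq_v, c3, d3]
    congr 2 <;> omega
  have hKgen : ∀ y z, E x y z → u ∈ T E x y z → v ∈ T E x y z → v ∈ Ap E y z x u →
      u ∈ Ap E y z x v → u ∈ S E y x z → v ∈ S E y x z → K E y x z = {u, v} := by
    intro y z h hu hv hav hau huS hvS
    ext q
    rw [mem_K, mem_insert, mem_singleton]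
    constructor
    · rintro ⟨h1, r, hr, h2, h3⟩
      have h4 := mem_S.1 h1
      have h5 := adj_ap g h hr (g.s12 h4.1) (g.s23 h3) h4.2.1
      have hr' := mem_T.1 hr
      rcases swap_mem g h hu hv hav hau hr with h6 | h6
      · subst h6
        right
        exact ap_unique g (g.r h) hr'.2.1.symm hav h5
      · subst h6
        left
        exact ap_unique g (g.r h) hr'.2.1.symm hau h5
    · have hu' := mem_T.1 hu
      have hv' := mem_T.1 hv
      have hau' := mem_Ap.1 hau
      have hav' := mem_Ap.1 hav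
      rintro (rfl | rfl)
      · exact ⟨huS, v, hv, g.s12 hv'.1, g.s23 hau'.2.2⟩
      · exact ⟨hvS, u, hu, g.s12 hu'.1, g.s23 hav'.2.2⟩
  have hKy : K E y x z = {u, v} := hKgen y z h hu hv hav hau c1 a1
  have hKz : K E z x y = {u, v} := hKgen z y h' hu2 hv2 hav2 hau2 d1 b1
  have hKxy : K E x y z = ∅ := K_empty hTy
  have hKxz : K E x z y = ∅ := K_empty hTz
  have hKyz : K E y z x = ∅ := K_empty (by rw [← T_comm g]; exact hTz)
  have hKzy : K E z y x = ∅ := K_empty (by rw [← T_comm g]; exact hTy)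
  have ht := total_ge g h
  unfold Lo P KW at ht
  rw [hTx, hTy, hTz, hKy, hKz, hKxy, hKxz, hKyz, hKzy, sum_pair huv, sum_pair huv, sum_pair huv,
    hWu, hWv, a2, b2, c2, d2] at ht
  simp only [card_pair huv, card_empty, sum_empty, Nat.cast_zero, sub_zero, add_zero] at ht
  have hV1 := V1 (S E x y z).card (S E x z y).card _ _ a4 b4 a5 b5
  have hV2 := V1 (S E x y z).card (S E x z y).card _ _ c4 d4 c5 d5
  have hb : 2 ≤ (S E y x z).card := by
    have hsub : ({u, v} : Finset V) ⊆ S E y x z := by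
      intro q hq
      rw [mem_insert, mem_singleton] at hq
      rcases hq with rfl | rfl
      · exact c1
      · exact a1
    have := card_le_card hsub
    rwa [card_pair huv] at this
  have hd : 2 ≤ (S E z x y).card := by
    have hsub : ({u, v} : Finset V) ⊆ S E z x y := by
      intro q hq
      rw [mem_insert, mem_singleton] at hq
      rcases hq with rfl | rfl
      · exact d1
      · exact b1
    have := card_le_card hsub
    rwa [card_pair huv] at this
  have hN := numSwap (S E x y z).card (S E y x z).card (S E x z y).card (S E z x y).card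
    (S E y z x).card (S E z y x).card _ hb hd le_rfl
  have e : ∀ a b : ℚ, a / (2 * (1 + b)) = a / (1 + b) / 2 := by
    intro a b
    rw [div_div, mul_comm (1 + b) 2]
  simp only [e] at ht
  have e3 : (1 + ((2:ℕ):ℚ) + (S E x y z).card + (S E x z y).card : ℚ)
      = 3 + (S E x y z).card + (S E x z y).card := by push_cast; ring
  rw [e3] at ht
  push_cast at ht
  linarith

omit g [Fintype V] [DecidableEq V] in
/-- the eight triples of a dense block -/
structure Blk (E : V → V → V → Prop) (x y z u v : V) : Prop where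
  h : E x y z
  e1 : E y z u
  e2 : E x z v
  e3 : E x y u
  e4 : E x y v
  e5 : E z u v
  e6 : E y u v
  e7 : E x u v

namespace Blk

variable {x y z u v : V} (B : Blk E x y z u v)
include B

lemma swap : Blk E y x z v u :=
  ⟨g.s12 B.h, B.e2, B.e1, g.s12 B.e4, g.s12 B.e3, g.s23 B.e5, g.s23 B.e7, g.s23 B.e6⟩

lemma apu : v ∈ Ap E y z x u := by
  rw [mem_Ap]; exact ⟨⟨g.s12 B.e4, B.e6⟩, g.s12 B.e2, B.e5⟩

lemma uT : u ∈ T E x y z := T_of_ap g B.e1 (g.ne13 B.e3).symm (B.apu g)

lemma apv : u ∈ Ap E x z y v := (B.swap g).apu g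

lemma vT : v ∈ T E y x z := (B.swap g).uT g

lemma Tx {q : V} (hq : q ∈ T E x y z) : q = u ∨ q = v := by
  obtain ⟨b, hb⟩ := T_ap g B.h hq
  have hq' := mem_T.1 hq
  by_cases hbv : b = v
  · subst hbv
    left
    have h1 := adj_ap g (g.s12 B.h) (B.vT g) (g.s12 hq'.1) (g.s23 (mem_Ap.1 hb).2.2) hq'.2.1
    exact ap_unique g (g.s23 B.h) (mem_T.1 (B.vT g)).2.1.symm (B.apv g) h1
  · right
    exact (two_apex g B.h (B.uT g) hq (B.apu g) hb (fun h => hbv h.symm)).2.symm

lemma Tz {q : V} (hq : q ∈ T E z x y) : q = u ∨ q = v := by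
  obtain ⟨b, hb⟩ := T_ap g (g.r2 B.h) hq
  have hq' := mem_T.1 hq
  have hb' := mem_Ap.1 hb
  have hxy : x ≠ y := g.ne B.h
  rcases g.int (p := z) (q := b) (r := u) (s := v) (c := x) (d := y)
    (g.r hb'.1.1) (g.r hb'.2.1) (g.r B.e7) (g.r B.e6) hxy with h1 | h1 | h1 | h1
  · exact absurd h1 (g.ne23 B.e1)
  · exact absurd h1 (g.ne23 B.e2)
  · subst h1
    right
    have h2 : b ∈ T E x z y := by rw [← T_comm g]; exact B.uT g
    have h3 := adj_ap g (g.s23 B.h) h2 (g.s12 hq'.1) (g.s23 hb'.2.2) hq'.2.1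
    have h4 : v ∈ Ap E z y x b := by rw [Ap_comm]; exact B.apu g
    exact ap_unique g (g.s13 B.h) (mem_T.1 h2).2.1.symm h4 h3
  · subst h1
    left
    have h2 : b ∈ T E y z x := by rw [← T_comm g]; exact B.vT g
    have h3 := adj_ap g (g.r B.h) h2 hq'.1 (g.s23 hb'.1.2) hq'.2.1
    have h4 : u ∈ Ap E z x y b := by rw [Ap_comm]; exact B.apv g
    exact ap_unique g (g.r2 B.h) (mem_T.1 h2).2.1.symm h4 h3

/-- without the triple `y z v`, `v` is not two-sided at `x` -/
lemma v_notMem (hb : ¬ E y z v) : v ∉ T E x y z := fun h => hb (mem_T.1 h).1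

lemma u_notMem_z (hb : ¬ E y z v) : u ∉ T E z x y := by
  intro hu
  have hu2 : u ∈ T E z y x := by rw [← T_comm g]; exact hu
  have h1 := adj_ap g (g.s13 B.h) hu2 B.e2 B.e7 (g.ne23 B.e4).symm
  exact hb (mem_Ap.1 h1).1.1

lemma v_notMem_z (ha : ¬ E x z u) : v ∉ T E z x y := (by
  have := (B.swap g).u_notMem_z g ha
  rwa [← T_comm g] at this)

lemma u_notMem_y (hb : ¬ E y z v) : u ∉ T E y x z := by
  intro hu
  have hu2 : u ∈ T E y z x := by rw [← T_comm g]; exact hu
  have h1 := adj_ap g (g.r B.h) hu2 B.e4 B.e7 (g.ne23 B.e2).symm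
  exact hb (g.s12 (mem_Ap.1 h1).1.1)

lemma nself {y z x : V} : u ∉ Ap E y z x u := fun h => g.ne23 (mem_Ap.1 h).1.2 rfl

lemma uniq_u : ∀ q ∈ T E x y z, v ∈ Ap E y z x q → q = u := by
  intro q hq hvq
  rcases B.Tx g hq with h1 | h1
  · exact h1
  · subst h1
    exact absurd rfl (g.ne23 (mem_Ap.1 hvq).1.2)

lemma uniq_u' : ∀ q ∈ T E x z y, v ∈ Ap E z y x q → q = u := by
  intro q hq hvq
  rw [← T_comm g] at hq
  rw [Ap_comm] at hvq
  exact B.uniq_u g q hq hvq

end Blk

lemma K_none {x y z : V} (h : E x y z)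
    (hP : ∀ r ∈ T E y x z, ∃ a, a ∈ Ap E x z y r ∧ a ∈ T E x y z) : K E x y z = ∅ := by
  rw [eq_empty_iff_forall_notMem]
  intro q hq
  rw [mem_K] at hq
  obtain ⟨h1, r, hr, h2, h3⟩ := hq
  have hq' := mem_S.1 h1
  have hr' := mem_T.1 hr
  obtain ⟨a, ha, haT⟩ := hP r hr
  have h4 := adj_ap g (g.s12 h) hr (g.s12 hq'.1) (g.s23 h3) hq'.2.1
  have h5 := ap_unique g (g.s23 h) hr'.2.1.symm ha h4
  rw [← h5] at haT
  exact (mem_T.1 haT).2.2.2 hq'.2.2.2

lemma K_single {x y z p : V} (h : E x y z) (hne : (T E y x z).Nonempty)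
    (hp : ∀ r ∈ T E y x z, p ∈ Ap E x z y r) (hS : p ∈ S E x y z) : K E x y z = {p} := by
  ext q
  rw [mem_K, mem_singleton]
  constructor
  · rintro ⟨h1, r, hr, h2, h3⟩
    have hq' := mem_S.1 h1
    have hr' := mem_T.1 hr
    have h4 := adj_ap g (g.s12 h) hr (g.s12 hq'.1) (g.s23 h3) hq'.2.1
    exact ap_unique g (g.s23 h) hr'.2.1.symm (hp r hr) h4
  · rintro rfl
    obtain ⟨r, hr⟩ := hne
    have hr' := mem_T.1 hr
    exact ⟨hS, r, hr, g.s12 hr'.1, g.s23 (mem_Ap.1 (hp r hr)).2.2⟩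

lemma case_B8 {x y z u v : V} (B : Blk E x y z u v) (ha : ¬ E x z u) (hb : ¬ E y z v) :
    2 ≤ w E y z x + w E z x y + w E x y z := by
  have Bs := B.swap g
  have hTx : T E x y z = {u} := by
    ext q
    rw [mem_singleton]
    constructor
    · intro hq
      rcases B.Tx g hq with h1 | h1
      · exact h1
      · subst h1; exact absurd hq (B.v_notMem g hb)
    · rintro rfl; exact B.uT g
  have hTy : T E y x z = {v} := by
    ext q
    rw [mem_singleton]
    constructor
    · intro hq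
      rcases Bs.Tx g hq with h1 | h1
      · exact h1
      · subst h1; exact absurd hq (Bs.v_notMem g ha)
    · rintro rfl; exact B.vT g
  have hTz : T E z x y = ∅ := by
    rw [eq_empty_iff_forall_notMem]
    intro q hq
    rcases B.Tz g hq with h1 | h1
    · subst h1; exact B.u_notMem_z g hb hq
    · subst h1; exact B.v_notMem_z g ha hq
  have hTx' : T E x z y = {u} := by rw [← T_comm g]; exact hTx
  have hTy' : T E y z x = {v} := by rw [← T_comm g]; exact hTy
  have hTz' : T E z y x = ∅ := by rw [← T_comm g]; exact hTz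
  have hu2 : u ∈ T E x z y := by rw [hTx']; exact mem_singleton_self u
  have hv2 : v ∈ T E y z x := by rw [hTy']; exact mem_singleton_self v
  have hvz : v ∉ T E z x y := by rw [hTz]; exact notMem_empty v
  have huz : u ∉ T E z y x := by rw [hTz']; exact notMem_empty u
  have apu2 : v ∈ Ap E z y x u := by rw [Ap_comm]; exact B.apu g
  have apv2 : u ∈ Ap E z x y v := by rw [Ap_comm]; exact B.apv g
  obtain ⟨a1, a2, a3, a4, a5, -⟩ := sideU g (g.s23 B.h) hu2 apu2 (B.uniq_u' g) hvz
  obtain ⟨b1, b2, b3, b4, b5, -⟩ := sideU g (g.r B.h) hv2 apv2 (Bs.uniq_u' g) huz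
  have hKxy : K E x y z = ∅ := K_none g B.h (by
    intro r hr
    rw [hTy, mem_singleton] at hr
    subst hr
    exact ⟨u, B.apv g, B.uT g⟩)
  have hKyx : K E y x z = ∅ := K_none g (g.s12 B.h) (by
    intro r hr
    rw [hTx, mem_singleton] at hr
    subst hr
    exact ⟨v, B.apu g, B.vT g⟩)
  have hKxz : K E x z y = ∅ := K_empty hTz
  have hKyz : K E y z x = ∅ := K_empty hTz'
  have hKzx : K E z x y = {v} := K_single g (g.r2 B.h) ⟨u, hu2⟩ (by
    intro r hr
    rw [hTx', mem_singleton] at hr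
    subst hr
    exact apu2) a1
  have hKzy : K E z y x = {u} := K_single g (g.s13 B.h) ⟨v, hv2⟩ (by
    intro r hr
    rw [hTy', mem_singleton] at hr
    subst hr
    exact apv2) b1
  have hyv : y ≠ v := g.ne23 B.e4
  have hxu : x ≠ u := g.ne13 B.e3
  have hg1 : (GO E y v).card = 6 := GO_card_tri g (g.s23 B.h) B.e2 hyv (B.apv g)
  have hg2 : (GO E x u).card = 6 := GO_card_tri g (g.r B.h) B.e1 hxu (B.apu g)
  have hWu : W E y z x u = F 3 (cn E y z v).card / 2 := by
    rw [W_tri g (g.r B.h) hxu (B.apu g), fk_two g (B.apu g) (B.uniq_u g), hg1, a3]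
    congr 2
    omega
  have hWv : W E x z y v = F 3 (cn E x z u).card / 2 := by
    rw [W_tri g (g.s23 B.h) hyv (B.apv g), fk_two g (B.apv g) (Bs.uniq_u g), hg2, b3]
    congr 2
    omega
  have ht := total_ge g B.h
  unfold Lo P KW at ht
  rw [hTx, hTy, hTz, hKxy, hKyx, hKxz, hKyz, hKzx, hKzy] at ht
  simp only [sum_singleton, card_singleton, card_empty, sum_empty, hWu, hWv, a2, b2] at ht
  have hd : 1 ≤ (S E z x y).card := card_pos.2 ⟨v, a1⟩
  have hh : 1 ≤ (S E z y x).card := card_pos.2 ⟨u, b1⟩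
  have hN := numB8 (S E x y z).card (S E y x z).card (S E x z y).card (S E z x y).card
    (S E y z x).card (S E z y x).card _ _ hd hh a4 a5 b4 b5
  have e : ∀ a b : ℚ, a / (2 * (1 + b)) = a / (1 + b) / 2 := by
    intro a b
    rw [div_div, mul_comm (1 + b) 2]
  simp only [e] at ht
  push_cast at ht
  have e1 : (1 + 1 + (S E x y z).card + (S E x z y).card : ℚ)
      = 2 + (S E x y z).card + (S E x z y).card := by ring
  have e2 : (1 + 1 + (S E y x z).card + (S E y z x).card : ℚ)
      = 2 + (S E y x z).card + (S E y z x).card := by ring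
  rw [e1, e2] at ht
  simp only [add_zero, sub_zero] at ht
  linarith

lemma case_B9 {x y z u v : V} (B : Blk E x y z u v) (ha : E x z u) (hb : ¬ E y z v) :
    2 ≤ w E y z x + w E z x y + w E x y z := by
  have Bs := B.swap g
  have hTx : T E x y z = {u} := by
    ext q
    rw [mem_singleton]
    constructor
    · intro hq
      rcases B.Tx g hq with h1 | h1
      · exact h1
      · subst h1; exact absurd hq (B.v_notMem g hb)
    · rintro rfl; exact B.uT g
  have hTy : T E y x z = {v} := by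
    ext q
    rw [mem_singleton]
    constructor
    · intro hq
      rcases Bs.Tx g hq with h1 | h1
      · exact h1
      · subst h1; exact absurd hq (B.u_notMem_y g hb)
    · rintro rfl; exact B.vT g
  have hzv : z ≠ v := g.ne23 B.e2
  have apz : u ∈ Ap E x y z v := by
    rw [mem_Ap]; exact ⟨⟨ha, g.s23 B.e7⟩, B.e1, g.s23 B.e6⟩
  have hvTz : v ∈ T E z x y := T_of_ap g B.e4 hzv.symm apz
  have hTz : T E z x y = {v} := by
    ext q
    rw [mem_singleton]
    constructor
    · intro hq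
      rcases B.Tz g hq with h1 | h1
      · subst h1; exact absurd hq (B.u_notMem_z g hb)
      · exact h1
    · rintro rfl; exact hvTz
  have hTx' : T E x z y = {u} := by rw [← T_comm g]; exact hTx
  have hTy' : T E y z x = {v} := by rw [← T_comm g]; exact hTy
  have hTz' : T E z y x = {v} := by rw [← T_comm g]; exact hTz
  have hv2 : v ∈ T E y z x := by rw [hTy']; exact mem_singleton_self v
  have hv3 : v ∈ T E z y x := by rw [hTz']; exact mem_singleton_self v
  have huz : u ∉ T E z y x := by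
    rw [← T_comm g]; exact B.u_notMem_z g hb
  have huy : u ∉ T E y z x := by
    rw [← T_comm g]; exact B.u_notMem_y g hb
  have apv2 : u ∈ Ap E z x y v := by rw [Ap_comm]; exact B.apv g
  have apz2 : u ∈ Ap E y x z v := by rw [Ap_comm]; exact apz
  have uni1 : ∀ q ∈ T E y z x, u ∈ Ap E z x y q → q = v := by
    intro q hq _
    rw [hTy', mem_singleton] at hq
    exact hq
  have uni2 : ∀ q ∈ T E z y x, u ∈ Ap E y x z q → q = v := by
    intro q hq _
    rw [hTz', mem_singleton] at hq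
    exact hq
  obtain ⟨b1, b2, b3, b4, -, b6⟩ := sideU g (g.r B.h) hv2 apv2 uni1 huz
  obtain ⟨c1, c2, c3, c4, -, c6⟩ := sideU g (g.s13 B.h) hv3 apz2 uni2 huy
  have hKxy : K E x y z = ∅ := K_none g B.h (by
    intro r hr
    rw [hTy, mem_singleton] at hr
    subst hr
    exact ⟨u, B.apv g, B.uT g⟩)
  have hKyx : K E y x z = ∅ := K_none g (g.s12 B.h) (by
    intro r hr
    rw [hTx, mem_singleton] at hr
    subst hr
    exact ⟨v, B.apu g, B.vT g⟩)
  have hKxz : K E x z y = ∅ := K_none g (g.s23 B.h) (by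
    intro r hr
    rw [hTz, mem_singleton] at hr
    subst hr
    exact ⟨u, apz, by rw [hTx']; exact mem_singleton_self u⟩)
  have hKzx : K E z x y = ∅ := K_none g (g.r2 B.h) (by
    intro r hr
    rw [hTx', mem_singleton] at hr
    subst hr
    exact ⟨v, by rw [Ap_comm]; exact B.apu g, hvTz⟩)
  have hKyz : K E y z x = {u} := K_single g (g.r B.h) ⟨v, hv3⟩ (by
    intro r hr
    rw [hTz', mem_singleton] at hr
    subst hr
    exact apz2) c1
  have hKzy : K E z y x = {u} := K_single g (g.s13 B.h) ⟨v, hv2⟩ (by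
    intro r hr
    rw [hTy', mem_singleton] at hr
    subst hr
    exact apv2) b1
  have hyv : y ≠ v := g.ne23 B.e4
  have hxu : x ≠ u := g.ne13 B.e3
  have hg1 : (GO E y v).card = 6 := GO_card_tri g (g.s23 B.h) B.e2 hyv (B.apv g)
  have hg2 : (GO E x u).card = 6 := GO_card_tri g (g.r B.h) B.e1 hxu (B.apu g)
  have hg3 : (GO E z v).card = 6 := GO_card_tri g B.h B.e4 hzv apz
  have hWu : W E y z x u = 1 / 6 := by
    rw [W_tri g (g.r B.h) hxu (B.apu g), fk_two g (B.apu g) (B.uniq_u g), hg1, hg3]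
    have : F (6 / 2) (6 / 2) = 1 / 3 := F3_ge 3 le_rfl
    rw [this]
    norm_num
  have hWv : W E x z y v = F 3 (cn E x z u).card / 2 := by
    rw [W_tri g (g.s23 B.h) hyv (B.apv g), fk_two g (B.apv g) (Bs.uniq_u g), hg2, b3]
    congr 2
    omega
  have hWz : W E x y z v = F 3 (cn E x y u).card / 2 := by
    have uni3 : ∀ q ∈ T E z x y, u ∈ Ap E x y z q → q = v := by
      intro q hq _
      rw [hTz, mem_singleton] at hq
      exact hq
    rw [W_tri g B.h hzv apz, fk_two g apz uni3, hg2, c3]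
    congr 2
    omega
  have ht := total_ge g B.h
  unfold Lo P KW at ht
  rw [hTx, hTy, hTz, hKxy, hKyx, hKxz, hKyz, hKzx, hKzy] at ht
  have c2' : W E z x y u = 1 / (2 * ((cn E x y u).card : ℚ)) := c2 ▸ (W_comm g z x y u ▸ rfl)
  simp only [sum_singleton, card_singleton, card_empty, sum_empty, hWu, hWv, hWz, b2, c2'] at ht
  have he : 1 ≤ (S E y z x).card := card_pos.2 ⟨u, c1⟩
  have hh : 1 ≤ (S E z y x).card := card_pos.2 ⟨u, b1⟩
  have hbound : ∀ {a b c : V} {s t : Finset V}, s ⊆ insert a (insert b t) → c ∈ t → c ∉ s →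
      s.card ≤ 1 + t.card := by
    intro a b c s t hs hct hcs
    have h1 : s ⊆ insert a (insert b (t.erase c)) := by
      intro q hq
      have h2 := hs hq
      rw [mem_insert, mem_insert] at h2 ⊢
      rcases h2 with h2 | h2 | h2
      · exact Or.inl h2
      · exact Or.inr (Or.inl h2)
      · right; right
        rw [mem_erase]
        exact ⟨fun h => hcs (h ▸ hq), h2⟩
    have h3 := card_le_card h1
    have h4 := card_insert_le a (insert b (t.erase c))
    have h5 := card_insert_le b (t.erase c)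
    have h6 := card_erase_add_one hct
    omega
  have hs : (cn E x z u).card ≤ 1 + (S E y z x).card := hbound b6 c1 (by
    rw [mem_cn]
    intro h
    exact g.ne23 h.2 rfl)
  have ht' : (cn E x y u).card ≤ 1 + (S E z y x).card := hbound c6 b1 (by
    rw [mem_cn]
    intro h
    exact g.ne23 h.2 rfl)
  have hN := numB9 (S E x y z).card (S E y x z).card (S E x z y).card (S E z x y).card
    (S E y z x).card (S E z y x).card _ _ he hh b4 hs c4 ht'
  have e : ∀ a b : ℚ, a / (2 * (1 + b)) = a / (1 + b) / 2 := by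
    intro a b
    rw [div_div, mul_comm (1 + b) 2]
  simp only [e] at ht
  push_cast at ht
  have e1 : (1 + 1 + (S E x y z).card + (S E x z y).card : ℚ)
      = 2 + (S E x y z).card + (S E x z y).card := by ring
  have e2 : (1 + 1 + (S E y x z).card + (S E y z x).card : ℚ)
      = 2 + (S E y x z).card + (S E y z x).card := by ring
  have e3 : (1 + 1 + (S E z x y).card + (S E z y x).card : ℚ)
      = 2 + (S E z x y).card + (S E z y x).card := by ring
  rw [e1, e2, e3] at ht
  simp only [add_zero, sub_zero] at ht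
  linarith

omit g [Fintype V] [DecidableEq V] in
/-- all ten triples of a five-set -/
structure Full (E : V → V → V → Prop) (x y z u v : V) : Prop where
  b : Blk E x y z u v
  f1 : E x z u
  f2 : E y z v

lemma Full.swap12 {x y z u v : V} (f : Full E x y z u v) : Full E y x z u v :=
  ⟨⟨g.s12 f.b.h, f.f1, f.f2, g.s12 f.b.e3, g.s12 f.b.e4, f.b.e5, f.b.e7, f.b.e6⟩, f.b.e1, f.b.e2⟩

lemma Full.swap23 {x y z u v : V} (f : Full E x y z u v) : Full E x z y u v :=
  ⟨⟨g.s23 f.b.h, g.s12 f.b.e1, f.b.e4, f.f1, f.b.e2, f.b.e6, f.b.e5, f.b.e7⟩, f.b.e3, g.s12 f.f2⟩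

lemma Full.swap45 {x y z u v : V} (f : Full E x y z u v) : Full E x y z v u :=
  ⟨⟨f.b.h, f.f2, f.f1, f.b.e4, f.b.e3, g.s23 f.b.e5, g.s23 f.b.e6, g.s23 f.b.e7⟩, f.b.e2, f.b.e1⟩

lemma Full.T_eq {x y z u v : V} (f : Full E x y z u v) : T E x y z = {u, v} := by
  ext q
  rw [mem_insert, mem_singleton]
  constructor
  · exact fun h => f.b.Tx g h
  · rintro (rfl | rfl)
    · exact f.b.uT g
    · exact (f.swap45 g).b.uT g

lemma Full.W_eq {x y z u v : V} (f : Full E x y z u v) : W E y z x u = 1 / 6 := by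
  have hxu : x ≠ u := g.ne13 f.b.e3
  have hyv : y ≠ v := g.ne23 f.b.e4
  have hzv : z ≠ v := g.ne23 f.b.e2
  have hg1 : (GO E y v).card = 6 := GO_card_tri g (g.s23 f.b.h) f.b.e2 hyv (f.b.apv g)
  have hg3 : (GO E z v).card = 6 := by
    have f' := f.swap23 g
    exact GO_card_tri g (g.s23 f'.b.h) f'.b.e2 hzv (f'.b.apv g)
  rw [W_tri g (g.r f.b.h) hxu (f.b.apu g), fk_two g (f.b.apu g) (f.b.uniq_u g), hg1, hg3]
  have : F (6 / 2) (6 / 2) = 1 / 3 := F3_ge 3 le_rfl
  rw [this]
  norm_num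

lemma Full.K_eq {x y z u v : V} (f : Full E x y z u v) : K E x y z = ∅ := by
  apply K_none g f.b.h
  intro r hr
  have f' := f.swap12 g
  rw [f'.T_eq g, mem_insert, mem_singleton] at hr
  rcases hr with rfl | rfl
  · refine ⟨v, (f'.b).apu g, ?_⟩
    rw [f.T_eq g]; simp
  · refine ⟨u, f.b.apv g, ?_⟩
    rw [f.T_eq g]; simp

lemma case_K5 {x y z u v : V} (f : Full E x y z u v) :
    2 ≤ w E y z x + w E z x y + w E x y z := by
  have huv : u ≠ v := g.ne23 f.b.e7
  have fy := f.swap12 g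
  have fz := (f.swap23 g).swap12 g
  have ht := total_ge g f.b.h
  unfold Lo P KW at ht
  rw [f.T_eq g, fy.T_eq g, fz.T_eq g, f.K_eq g, (f.swap23 g).K_eq g, fy.K_eq g,
    (fy.swap23 g).K_eq g, fz.K_eq g, (fz.swap23 g).K_eq g, sum_pair huv, sum_pair huv,
    sum_pair huv, f.W_eq g, (f.swap45 g).W_eq g, fy.W_eq g, (fy.swap45 g).W_eq g, fz.W_eq g,
    (fz.swap45 g).W_eq g] at ht
  simp only [card_pair huv, card_empty, sum_empty] at ht
  have hN := numK5 (S E x y z).card (S E y x z).card (S E x z y).card (S E z x y).card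
    (S E y z x).card (S E z y x).card
  have e : ∀ a b : ℚ, a / (2 * (1 + b)) = a / (1 + b) / 2 := by
    intro a b
    rw [div_div, mul_comm (1 + b) 2]
  simp only [e] at ht
  push_cast at ht
  have e1 : (1 + 2 + (S E x y z).card + (S E x z y).card : ℚ)
      = 3 + (S E x y z).card + (S E x z y).card := by ring
  have e2 : (1 + 2 + (S E y x z).card + (S E y z x).card : ℚ)
      = 3 + (S E y x z).card + (S E y z x).card := by ring
  have e3 : (1 + 2 + (S E z x y).card + (S E z y x).card : ℚ)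
      = 3 + (S E z x y).card + (S E z y x).card := by ring
  rw [e1, e2, e3] at ht
  simp only [add_zero, sub_zero] at ht
  linarith

/-- two-sided adjacency gives a block -/
lemma blk_of_adj {x y z u v : V} (h : E x y z) (hu : u ∈ T E x y z) (hv : v ∈ Ap E y z x u)
    (hvT : v ∈ T E y x z) : Blk E x y z u v := by
  have hu' := mem_T.1 hu
  have hv' := mem_T.1 hvT
  have h1 := mem_Ap.1 hv
  have h2 := adj_ap g (g.s12 h) hvT (g.s12 hu'.1) (g.s23 h1.2.2) hu'.2.1
  have h3 := mem_Ap.1 h2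
  exact ⟨h, hu'.1, hv'.1, h3.1.1, g.s12 h1.1.1, h1.2.2, h1.1.2, g.s23 h3.1.2⟩

lemma case_blk {x y z u v : V} (B : Blk E x y z u v) :
    2 ≤ w E y z x + w E z x y + w E x y z := by
  by_cases ha : E x z u
  · by_cases hb : E y z v
    · exact case_K5 g ⟨B, ha, hb⟩
    · exact case_B9 g B ha hb
  · by_cases hb : E y z v
    · have := case_B9 g (B.swap g) hb ha
      rw [w_comm g x z y, w_comm g z y x, w_comm g y x z] at this
      linarith
    · exact case_B8 g B ha hb

/-- the status of a vertex of a triple -/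
lemma status {x y z : V} (h : E x y z)
    (n1 : ∀ u ∈ T E x y z, ∀ v ∈ Ap E y z x u, v ∉ T E y x z)
    (n2 : ∀ u ∈ T E x y z, ∀ v ∈ Ap E y z x u, v ∉ T E z x y)
    (hns : ∀ u v, u ∈ T E x y z → v ∈ T E x y z → v ∈ Ap E y z x u → u ∈ Ap E y z x v → False) :
    T E x y z = ∅ ∨ ∃ p, (T E x y z).Nonempty ∧ (∀ u ∈ T E x y z, p ∈ Ap E y z x u) ∧
      p ∉ T E y x z ∧ p ∉ T E z x y := by
  rcases (T E x y z).eq_empty_or_nonempty with h0 | ⟨u, hu⟩
  · exact Or.inl h0
  · right
    obtain ⟨p, hp⟩ := T_ap g h hu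
    refine ⟨p, ⟨u, hu⟩, ?_, n1 u hu p hp, n2 u hu p hp⟩
    intro q hq
    obtain ⟨b, hb⟩ := T_ap g h hq
    by_cases hpb : p = b
    · rw [hpb]; exact hb
    · exfalso
      obtain ⟨h1, h2⟩ := two_apex g h hu hq hp hb hpb
      subst h1
      subst h2
      exact hns b p hu hq hp hb

/-- **Local inequality.** -/
theorem local_ineq {x y z : V} (h : E x y z) :
    2 ≤ w E y z x + w E z x y + w E x y z := by
  by_cases hA : ∃ u v, u ∈ T E x y z ∧ v ∈ Ap E y z x u ∧ v ∈ T E y x z
  · obtain ⟨u, v, hu, hv, hvT⟩ := hA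
    exact case_blk g (blk_of_adj g h hu hv hvT)
  by_cases hB : ∃ u v, u ∈ T E x z y ∧ v ∈ Ap E z y x u ∧ v ∈ T E z x y
  · obtain ⟨u, v, hu, hv, hvT⟩ := hB
    have := case_blk g (blk_of_adj g (g.s23 h) hu hv hvT)
    rw [w_comm g z y x, w_comm g y x z, w_comm g x z y] at this
    linarith
  by_cases hC : ∃ u v, u ∈ T E y z x ∧ v ∈ Ap E z x y u ∧ v ∈ T E z y x
  · obtain ⟨u, v, hu, hv, hvT⟩ := hC
    have := case_blk g (blk_of_adj g (g.r h) hu hv hvT)
    linarith
  push Not at hA hB hC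
  -- non-adjacency in all six directions
  have nxy : ∀ u ∈ T E x y z, ∀ v ∈ Ap E y z x u, v ∉ T E y x z := fun u hu v hv => hA u v hu hv
  have nxz : ∀ u ∈ T E x y z, ∀ v ∈ Ap E y z x u, v ∉ T E z x y := by
    intro u hu v hv
    exact hB u v (by rw [← T_comm g]; exact hu) (by rw [Ap_comm]; exact hv)
  have nyx : ∀ u ∈ T E y x z, ∀ v ∈ Ap E x z y u, v ∉ T E x y z := by
    intro u hu v hv hvT
    have B := blk_of_adj g (g.s12 h) hu hv hvT
    exact hA v u hvT (B.apv g) hu
  have nyz : ∀ u ∈ T E y x z, ∀ v ∈ Ap E x z y u, v ∉ T E z y x := by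
    intro u hu v hv
    exact hC u v (by rw [← T_comm g]; exact hu) (by rw [Ap_comm]; exact hv)
  have nzx : ∀ u ∈ T E z x y, ∀ v ∈ Ap E x y z u, v ∉ T E x z y := by
    intro u hu v hv hvT
    have B := blk_of_adj g (g.r2 h) hu hv hvT
    exact hB v u hvT (B.apv g) hu
  have nzy : ∀ u ∈ T E z x y, ∀ v ∈ Ap E x y z u, v ∉ T E y z x := by
    intro u hu v hv hvT
    have hu2 : u ∈ T E z y x := by rw [← T_comm g]; exact hu
    have hv2 : v ∈ Ap E y x z u := by rw [Ap_comm]; exact hv
    have B := blk_of_adj g (g.s13 h) hu2 hv2 hvT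
    exact hC v u hvT (B.apv g) hu2
  by_cases sx : ∃ u v, u ∈ T E x y z ∧ v ∈ T E x y z ∧ v ∈ Ap E y z x u ∧ u ∈ Ap E y z x v
  · obtain ⟨u, v, hu, hv, h1, h2⟩ := sx
    exact case_swap g h hu hv h1 h2 (nxy v hv u h2) (nxy u hu v h1) (nxz v hv u h2) (nxz u hu v h1)
  by_cases sy : ∃ u v, u ∈ T E y x z ∧ v ∈ T E y x z ∧ v ∈ Ap E x z y u ∧ u ∈ Ap E x z y v
  · obtain ⟨u, v, hu, hv, h1, h2⟩ := sy
    have := case_swap g (g.s12 h) hu hv h1 h2 (nyx v hv u h2) (nyx u hu v h1)
      (nyz v hv u h2) (nyz u hu v h1)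
    rw [w_comm g x z y, w_comm g z y x, w_comm g y x z] at this
    linarith
  by_cases sz : ∃ u v, u ∈ T E z x y ∧ v ∈ T E z x y ∧ v ∈ Ap E x y z u ∧ u ∈ Ap E x y z v
  · obtain ⟨u, v, hu, hv, h1, h2⟩ := sz
    have := case_swap g (g.r2 h) hu hv h1 h2
      (nzx v hv u h2) (nzx u hu v h1)
      (nzy v hv u h2) (nzy u hu v h1)
    linarith
  push Not at sx sy sz
  refine case_A g h (status g h nxy nxz (fun u v hu hv h1 h2 => sx u v hu hv h1 h2)) ?_ ?_
  · exact status g (g.s12 h) nyx nyz (fun u v hu hv h1 h2 => sy u v hu hv h1 h2)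
  · exact status g (g.r2 h) nzx nzy (fun u v hu hv h1 h2 => sz u v hu hv h1 h2)

end defs

end Pool.Agent.Lib.MP_df5da3_co
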