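import Pool.Agent.Lib.MP_df5da3_co.Local

set_option autoImplicit false
set_option linter.unusedSectionVars false

namespace Pool.Agent.Lib.MP_df5da3_co

open Finset

section defs

variable {V : Type*} [Fintype V] [DecidableEq V] (E : V → V → V → Prop)

/-- vertex part of the lower bound -/
noncomputable def Lo (x y z : V) : ℚ :=
  1 / (1 + (T E x y z).card + (S E x y z).card + (S E x z y).card : ℚ)
    + ∑ u ∈ T E x y z, W E y z x u

/-- charge of the special one-sided vertices -/
noncomputable def KW (x y z : V) : ℚ := ∑ u ∈ K E x y z, W E y z x u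

/-- numerical part of the lower bound for one-sided vertices -/
noncomputable def P (x y z : V) : ℚ :=
  (((S E x y z).card : ℚ) - (K E x y z).card) / (2 * (1 + (S E y x z).card))

variable {E}
variable (g : Good E)
include g

lemma w_ge {x y z : V} (h : E x y z) :
    Lo E x y z + (P E x y z + KW E x y z) + (P E x z y + KW E x z y) ≤ w E y z x := by
  have h1 := w_lower g h
  have h2 := sum_S_lower g h
  have h3 := sum_S_lower g (g.s23 h)
  have h4 : ∑ u ∈ S E x z y, W E z y x u = ∑ u ∈ S E x z y, W E y z x u :=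
    sum_congr rfl (fun u _ => W_comm g z y x u)
  rw [h4] at h3
  unfold Lo P KW
  linarith

lemma w_comm (x y z : V) : w E x y z = w E y x z := by
  unfold w
  rw [N_comm g x y]
  congr 1
  exact sum_congr rfl (fun u _ => W_comm g x y z u)

lemma total_ge {x y z : V} (h : E x y z) :
    Lo E x y z + Lo E y x z + Lo E z x y
      + (P E x y z + KW E x y z) + (P E x z y + KW E x z y)
      + (P E y x z + KW E y x z) + (P E y z x + KW E y z x)
      + (P E z x y + KW E z x y) + (P E z y x + KW E z y x)
      ≤ w E y z x + w E z x y + w E x y z := by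
  have h1 := w_ge g h
  have h2 := w_ge g (g.s12 h)
  have h3 := w_ge g (g.r2 h)
  rw [w_comm g x z y] at h2
  linarith

/-- two different apexes are swapped -/
lemma two_apex {x y z u v a b : V} (h : E x y z) (hu : u ∈ T E x y z) (hv : v ∈ T E x y z)
    (ha : a ∈ Ap E y z x u) (hb : b ∈ Ap E y z x v) (hab : a ≠ b) : b = u ∧ a = v := by
  rw [mem_Ap] at ha hb
  rw [mem_T] at hu hv
  have hyz : y ≠ z := g.ne23 h
  have hxa : x ≠ a := g.ne23 ha.1.1
  have hxb : x ≠ b := g.ne23 hb.1.1
  have hxu := hu.2.1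
  have hxv := hv.2.1
  constructor
  · -- pairs {u, a} and {x, b}
    rcases g.int (p := u) (q := a) (r := x) (s := b) (c := y) (d := z)
      (g.r ha.1.2) (g.r ha.2.2) (g.r hb.1.1) (g.r hb.2.1) hyz with h1 | h1 | h1 | h1
    · exact absurd h1 hxu
    · exact h1.symm
    · exact absurd h1.symm hxa
    · exact absurd h1 hab
  · rcases g.int (p := v) (q := b) (r := x) (s := a) (c := y) (d := z)
      (g.r hb.1.2) (g.r hb.2.2) (g.r ha.1.1) (g.r ha.2.1) hyz with h1 | h1 | h1 | h1
    · exact absurd h1 hxv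
    · exact h1.symm
    · exact absurd h1.symm hxb
    · exact absurd h1.symm hab

/-- data of one side of a vertex with a common apex -/
lemma side {x y z p : V} (h : E x y z) (hne : (T E x y z).Nonempty)
    (hp : ∀ u ∈ T E x y z, p ∈ Ap E y z x u) (hpy : p ∉ T E y x z) :
    p ∈ S E y x z ∧ K E y x z = {p} ∧ W E x z y p = 1 / (2 * ((cn E z y p).card : ℚ)) ∧
      (GO E y p).card = 2 * (cn E z y p).card ∧ 1 + (T E x y z).card ≤ (cn E z y p).card ∧
      (cn E z y p).card ≤ 1 + (S E x y z).card + (T E x y z).card := by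
  obtain ⟨u, hu⟩ := hne
  have hpu := hp u hu
  have hu' := mem_T.1 hu
  have hpu' := mem_Ap.1 hpu
  have hxz : E x z p := g.s12 hpu'.2.1
  have hpy' : p ≠ y := (g.ne13 hpu'.1.1).symm
  have huc : u ∈ cn E z y p := by
    rw [mem_cn]; exact ⟨g.s12 hu'.1, g.s23 hpu'.2.2⟩
  have hc1 : cn E z y p ≠ {x} := ne_singleton huc hu'.2.1
  have hc2 : cn E x y p = {z} := by
    by_contra hcon
    exact hpy (mem_T.2 ⟨hxz, hpy', hc1, hcon⟩)
  have hS : p ∈ S E y x z := mem_S.2 ⟨hxz, hpy', hc1, hc2⟩
  refine ⟨hS, ?_, ?_, ?_, ?_, ?_⟩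
  · ext q
    rw [mem_K, mem_singleton]
    constructor
    · rintro ⟨h1, v, hv, h2, h3⟩
      have h4 := mem_S.1 h1
      have h5 := mem_T.1 hv
      have h6 : q ∈ cn E z x v := by
        rw [mem_cn]; exact ⟨g.s12 h4.1, g.s23 h3⟩
      have h7 : p ∈ Ap E z y x v := by rw [Ap_comm]; exact hp v hv
      rw [cn_of_ap g (g.s13 h) (g.s12 h5.1) h5.2.1.symm h7, mem_insert, mem_singleton] at h6
      rcases h6 with h6 | h6
      · exact absurd h6 h4.2.1
      · exact h6
    · rintro rfl
      exact ⟨hS, u, hu, g.s12 hu'.1, g.s23 hpu'.2.2⟩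
  · exact W_single g (g.s23 h) hxz hpy'.symm hc2
  · exact GO_card_single g (g.s23 h) hxz hpy'.symm hc2
  · have hx : x ∉ T E x y z := by
      intro hx
      exact (mem_T.1 hx).2.1 rfl
    have hsub : insert x (T E x y z) ⊆ cn E z y p := by
      intro v hv
      rw [mem_insert] at hv
      rw [mem_cn]
      rcases hv with rfl | hv
      · exact ⟨g.s13 h, g.s23 hpu'.2.1⟩
      · exact ⟨g.s12 (mem_T.1 hv).1, g.s23 (mem_Ap.1 (hp v hv)).2.2⟩
    have := card_le_card hsub
    rw [card_insert_of_notMem hx] at this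
    omega
  · have h1 := card_le_card (cn_sub g (x := y) (y := x) (z := z) (u := p) hxz hpy')
    have h2 := card_insert_le x (S E x y z ∪ T E x y z)
    have h3 := card_union_le (S E x y z) (T E x y z)
    omega

/-- the completing vertices of a triangular pair -/
lemma K3_eq {x y z p : V} (h : E x y z) (hne : (T E x y z).Nonempty)
    (hp : ∀ u ∈ T E x y z, p ∈ Ap E y z x u) : (K3 E y z p).card = 1 + (T E x y z).card := by
  obtain ⟨u, hu⟩ := hne
  have hpu := mem_Ap.1 (hp u hu)
  have hx : x ∉ T E x y z := by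
    intro hx
    exact (mem_T.1 hx).2.1 rfl
  have h1 : K3 E y z p = insert x (T E x y z) := by
    ext c
    rw [mem_K3, mem_insert]
    constructor
    · rintro ⟨h1, h2, h3⟩
      by_cases hcx : c = x
      · exact Or.inl hcx
      · right
        apply T_of_ap g h1 hcx (a := p)
        rw [mem_Ap]
        exact ⟨⟨hpu.1.1, g.s23 h2⟩, hpu.2.1, g.s23 h3⟩
    · rintro (rfl | hc)
      · exact ⟨g.r h, g.s23 hpu.1.1, g.s23 hpu.2.1⟩
      · have := mem_Ap.1 (hp c hc)
        exact ⟨(mem_T.1 hc).1, g.s23 this.1.2, g.s23 this.2.2⟩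
  rw [h1, card_insert_of_notMem hx]
  ring

/-- the contribution of a vertex of the triple, when there is no two-sided adjacency -/
lemma vpack {x y z : V} (h : E x y z)
    (hs : T E x y z = ∅ ∨ ∃ p, (T E x y z).Nonempty ∧ (∀ u ∈ T E x y z, p ∈ Ap E y z x u) ∧
      p ∉ T E y x z ∧ p ∉ T E z x y) :
    ∃ k : ℕ, (K E y x z).card = k ∧ (K E z x y).card = k ∧
      ((k = 0 ∧ 1 / (1 + (S E x y z).card + (S E x z y).card : ℚ) ≤
          Lo E x y z + KW E y x z + KW E z x y) ∨
       (k = 1 ∧ 1 ≤ (S E y x z).card ∧ 1 ≤ (S E z x y).card ∧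
          1 / (2 + (S E x y z).card + (S E x z y).card : ℚ)
            + min 1 (1 / (1 + (S E x y z).card : ℚ) + 1 / (1 + (S E x z y).card : ℚ)) / 2 ≤
          Lo E x y z + KW E y x z + KW E z x y)) := by
  rcases hs with hs | ⟨p, hne, hp, hpy, hpz⟩
  · refine ⟨0, ?_, ?_, Or.inl ⟨rfl, ?_⟩⟩
    · rw [card_eq_zero, eq_empty_iff_forall_notMem]
      intro q hq
      rw [mem_K] at hq
      obtain ⟨_, v, hv, _⟩ := hq
      rw [hs] at hv
      exact absurd hv (notMem_empty v)
    · rw [card_eq_zero, eq_empty_iff_forall_notMem]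
      intro q hq
      rw [mem_K] at hq
      obtain ⟨_, v, hv, _⟩ := hq
      rw [← T_comm g, hs] at hv
      exact absurd hv (notMem_empty v)
    · have k1 : K E y x z = ∅ := by
        rw [eq_empty_iff_forall_notMem]
        intro q hq
        rw [mem_K] at hq
        obtain ⟨_, v, hv, _⟩ := hq
        rw [hs] at hv
        exact absurd hv (notMem_empty v)
      have k2 : K E z x y = ∅ := by
        rw [eq_empty_iff_forall_notMem]
        intro q hq
        rw [mem_K] at hq
        obtain ⟨_, v, hv, _⟩ := hq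
        rw [← T_comm g, hs] at hv
        exact absurd hv (notMem_empty v)
      unfold Lo KW
      rw [k1, k2, hs]
      simp
  · have hne' : (T E x z y).Nonempty := by rw [← T_comm g]; exact hne
    have hp' : ∀ u ∈ T E x z y, p ∈ Ap E z y x u := by
      intro u hu
      rw [← T_comm g] at hu
      rw [Ap_comm]
      exact hp u hu
    obtain ⟨a1, a2, a3, a4, a5, a6⟩ := side g h hne hp hpy
    obtain ⟨b1, b2, b3, b4, b5, b6⟩ := side g (g.s23 h) hne' hp' hpz
    rw [← T_comm g x y z] at b5 b6
    have hk := K3_eq g h hne hp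
    have hWT : ∀ u ∈ T E x y z, W E y z x u =
        Fk (1 + (T E x y z).card) (cn E z y p).card (cn E y z p).card / 2 := by
      intro u hu
      have hu' := mem_T.1 hu
      rw [W_tri g (g.r h) hu'.2.1.symm (hp u hu), hk, a4, b4]
      congr 2
      · omega
      · omega
    have hLo : Lo E x y z + KW E y x z + KW E z x y =
        1 / (1 + (T E x y z).card + (S E x y z).card + (S E x z y).card : ℚ)
        + (T E x y z).card * (Fk (1 + (T E x y z).card) (cn E z y p).card (cn E y z p).card / 2)
        + 1 / (2 * ((cn E z y p).card : ℚ)) + 1 / (2 * ((cn E y z p).card : ℚ)) := by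
      unfold Lo KW
      rw [a2, b2, sum_singleton, sum_singleton, a3, b3, sum_congr rfl hWT, sum_const, nsmul_eq_mul]
    refine ⟨1, by rw [a2, card_singleton], by rw [b2, card_singleton], Or.inr ⟨rfl, ?_, ?_, ?_⟩⟩
    · exact card_pos.2 ⟨p, a1⟩
    · exact card_pos.2 ⟨p, b1⟩
    · rw [hLo]
      have hτ : 1 ≤ (T E x y z).card := card_pos.2 hne
      set τ := (T E x y z).card with hτd
      set s := (cn E z y p).card
      set t := (cn E y z p).card
      set a := (S E x y z).card
      set c := (S E x z y).card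
      rcases Nat.eq_or_lt_of_le hτ with h1 | h1
      · rw [← h1]
        have hV := V1 a c s t (by omega) (by omega) (by omega) (by omega)
        have e1 : Fk (1 + 1) s t = F s t := by
          unfold Fk
          rw [if_neg (by norm_num)]
        rw [e1]
        have e2 : (1 + ((1:ℕ):ℚ) + a + c) = 2 + a + c := by push_cast; ring
        rw [e2]
        push_cast
        linarith
      · have hV := V2 τ a c h1
        have e1 : Fk (1 + τ) s t = 1 / 3 := by
          unfold Fk
          rw [if_pos (by omega)]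
        rw [e1]
        have hs0 : (0:ℚ) < s := by
          have : 0 < s := by omega
          exact_mod_cast this
        have ht0 : (0:ℚ) < t := by
          have : 0 < t := by omega
          exact_mod_cast this
        have hs1 : (s:ℚ) ≤ 1 + τ + a := by
          have : s ≤ 1 + τ + a := by omega
          exact_mod_cast this
        have ht1 : (t:ℚ) ≤ 1 + τ + c := by
          have : t ≤ 1 + τ + c := by omega
          exact_mod_cast this
        have i1 : 1 / (2 * (1 + τ + a : ℚ)) ≤ 1 / (2 * (s:ℚ)) := by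
          apply one_div_le_one_div_of_le (by positivity); linarith
        have i2 : 1 / (2 * (1 + τ + c : ℚ)) ≤ 1 / (2 * (t:ℚ)) := by
          apply one_div_le_one_div_of_le (by positivity); linarith
        linarith

/-- main case: no two-sided adjacency and common apexes -/
lemma case_A {x y z : V} (h : E x y z)
    (hx : T E x y z = ∅ ∨ ∃ p, (T E x y z).Nonempty ∧ (∀ u ∈ T E x y z, p ∈ Ap E y z x u) ∧
      p ∉ T E y x z ∧ p ∉ T E z x y)
    (hy : T E y x z = ∅ ∨ ∃ p, (T E y x z).Nonempty ∧ (∀ u ∈ T E y x z, p ∈ Ap E x z y u) ∧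
      p ∉ T E x y z ∧ p ∉ T E z y x)
    (hz : T E z x y = ∅ ∨ ∃ p, (T E z x y).Nonempty ∧ (∀ u ∈ T E z x y, p ∈ Ap E x y z u) ∧
      p ∉ T E x z y ∧ p ∉ T E y z x) :
    2 ≤ w E y z x + w E z x y + w E x y z := by
  obtain ⟨kx, x1, x2, x3⟩ := vpack g h hx
  obtain ⟨ky, y1, y2, y3⟩ := vpack g (g.s12 h) hy
  obtain ⟨kz, z1, z2, z3⟩ := vpack g (g.r2 h) hz
  have hN := numA (S E x y z).card (S E y x z).card (S E x z y).card (S E z x y).card
    (S E y z x).card (S E z y x).card kx ky kz _ _ _ x3 y3 z3
  have ht := total_ge g h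
  have e : ∀ a b : ℚ, a / (2 * (1 + b)) = a / (1 + b) / 2 := by
    intro a b
    rw [div_div, mul_comm (1 + b) 2]
  unfold P at ht
  simp only [e, x1, x2, y1, y2, z1, z2] at ht
  linarith

end defs

end Pool.Agent.Lib.MP_df5da3_co
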