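import Pool.Agent.Lib.MP_df5da3_co.Final

set_option autoImplicit false
set_option linter.unusedSectionVars false

namespace Pool.Agent.Lib.MP_df5da3_co

open Finset

variable {V : Type*} [Fintype V] [DecidableEq V]

/-- triples of the blocks of a design with block size five -/
lemma design_family (B : Finset (Finset V)) (h5 : ∀ b ∈ B, b.card = 5)
    (hB : ∀ x y : V, x ≠ y → ∃! b, b ∈ B ∧ x ∈ b ∧ y ∈ b) :
    ∃ H : Finset (Finset V), (∀ e ∈ H, e.card = 3) ∧ H.card = (Fintype.card V).choose 2 ∧
      ¬ Rep H := by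
  classical
  have huniq : ∀ b ∈ B, ∀ b' ∈ B, ∀ x y : V, x ≠ y → x ∈ b → y ∈ b → x ∈ b' → y ∈ b' → b = b' := by
    intro b hb b' hb' x y hxy h1 h2 h3 h4
    exact (hB x y hxy).unique ⟨hb, h1, h2⟩ ⟨hb', h3, h4⟩
  refine ⟨B.biUnion (fun b => powersetCard 3 b), ?_, ?_, ?_⟩
  · intro e he
    rw [mem_biUnion] at he
    obtain ⟨b, _, hb⟩ := he
    exact (mem_powersetCard.1 hb).2
  · have hd3 : (B : Set (Finset V)).PairwiseDisjoint (fun b => powersetCard 3 b) := by
      intro b hb b' hb' hne
      rw [Function.onFun, disjoint_left]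
      intro e he he'
      rw [mem_powersetCard] at he he'
      obtain ⟨x, y, z, hxy, _, _, rfl⟩ := card_eq_three.1 he.2
      exact hne (huniq b hb b' hb' x y hxy (he.1 (by simp)) (he.1 (by simp)) (he'.1 (by simp))
        (he'.1 (by simp)))
    have hd2 : (B : Set (Finset V)).PairwiseDisjoint (fun b => powersetCard 2 b) := by
      intro b hb b' hb' hne
      rw [Function.onFun, disjoint_left]
      intro e he he'
      rw [mem_powersetCard] at he he'
      obtain ⟨x, y, hxy, rfl⟩ := card_eq_two.1 he.2
      exact hne (huniq b hb b' hb' x y hxy (he.1 (by simp)) (he.1 (by simp)) (he'.1 (by simp))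
        (he'.1 (by simp)))
    have h2 : B.biUnion (fun b => powersetCard 2 b) = powersetCard 2 (univ : Finset V) := by
      ext e
      rw [mem_biUnion, mem_powersetCard]
      constructor
      · rintro ⟨b, _, hb⟩
        exact ⟨subset_univ _, (mem_powersetCard.1 hb).2⟩
      · rintro ⟨_, he⟩
        obtain ⟨x, y, hxy, rfl⟩ := card_eq_two.1 he
        obtain ⟨b, ⟨hb, hx, hy⟩, _⟩ := hB x y hxy
        refine ⟨b, hb, mem_powersetCard.2 ⟨?_, he⟩⟩
        intro t ht
        rw [mem_insert, mem_singleton] at ht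
        rcases ht with rfl | rfl
        · exact hx
        · exact hy
    have e2 : (B.biUnion (fun b => powersetCard 2 b)).card = (Fintype.card V).choose 2 := by
      rw [h2, card_powersetCard, card_univ]
    rw [card_biUnion hd2] at e2
    rw [card_biUnion hd3, ← e2]
    apply sum_congr rfl
    intro b hb
    rw [card_powersetCard, card_powersetCard, h5 b hb]
    rfl
  · rintro ⟨A, hA, A', hA', C, hC, D, hD, hAA, hCD, hun, hne1, hne2⟩
    simp only [mem_biUnion, mem_powersetCard] at hA hA' hC hD
    obtain ⟨b1, hb1, hAb, hA3⟩ := hA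
    obtain ⟨b2, hb2, hA'b, hA'3⟩ := hA'
    obtain ⟨b3, hb3, hCb, hC3⟩ := hC
    obtain ⟨b4, hb4, hDb, hD3⟩ := hD
    -- two triples sharing two points lie in the same block
    have same : ∀ (X Y b b' : Finset V), b ∈ B → b' ∈ B → X ⊆ b → Y ⊆ b' → 2 ≤ (X ∩ Y).card →
        b = b' := by
      intro X Y b b' hb hb' hX hY hc
      obtain ⟨x, hx, y, hy, hxy⟩ := one_lt_card.1 hc
      rw [mem_inter] at hx hy
      exact huniq b hb b' hb' x y hxy (hX hx.1) (hX hy.1) (hY hx.2) (hY hy.2)
    have c1 : (A ∩ C).card + (A ∩ D).card = 3 := by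
      rw [← card_union_of_disjoint, ← inter_union_distrib_left, ← hun, inter_union_distrib_left,
        inter_self, disjoint_iff_inter_eq_empty.1 hAA, union_empty, hA3]
      exact hCD.mono inter_subset_right inter_subset_right
    have c2 : (A' ∩ C).card + (A' ∩ D).card = 3 := by
      rw [← card_union_of_disjoint, ← inter_union_distrib_left, ← hun, inter_union_distrib_left,
        inter_self, disjoint_iff_inter_eq_empty.1 hAA.symm, empty_union, hA'3]
      exact hCD.mono inter_subset_right inter_subset_right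
    have c3 : (A ∩ C).card + (A' ∩ C).card = 3 := by
      rw [← card_union_of_disjoint, ← union_inter_distrib_right, hun, union_inter_distrib_right,
        inter_self, inter_comm D C, disjoint_iff_inter_eq_empty.1 hCD, union_empty, hC3]
      exact hAA.mono inter_subset_left inter_subset_left
    have nAC : (A ∩ C).card ≠ 3 := by
      intro h
      apply hne1
      have h1 : A ∩ C = A := eq_of_subset_of_card_le inter_subset_left (by omega)
      have h2 : A ∩ C = C := eq_of_subset_of_card_le inter_subset_right (by omega)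
      rw [← h1]; exact h2
    have nAD : (A ∩ D).card ≠ 3 := by
      intro h
      apply hne2
      have h1 : A ∩ D = A := eq_of_subset_of_card_le inter_subset_left (by omega)
      have h2 : A ∩ D = D := eq_of_subset_of_card_le inter_subset_right (by omega)
      rw [← h1]; exact h2
    -- all of the four triples lie in one block
    have main : ∀ (A A' C D b1 b2 b3 b4 : Finset V), b1 ∈ B → b2 ∈ B → b3 ∈ B → b4 ∈ B →
        A ⊆ b1 → A' ⊆ b2 → C ⊆ b3 → D ⊆ b4 → A.card = 3 → A'.card = 3 → Disjoint A A' →
        Disjoint C D → A ∪ A' = C ∪ D →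
        (A ∩ C).card = 2 → (A ∩ D).card = 1 → (A' ∩ C).card = 1 → (A' ∩ D).card = 2 → False := by
      intro A A' C D b1 b2 b3 b4 hb1 hb2 hb3 hb4 hA hA' hC hD hA3 hA'3 hAA hCD hun k1 k2 k3 k4
      have e1 := same A C b1 b3 hb1 hb3 hA hC (by omega)
      have e2 := same A' D b2 b4 hb2 hb4 hA' hD (by omega)
      subst e1
      subst e2
      -- the point of `A ∩ D` and the point of `A' ∩ C` lie in both blocks
      obtain ⟨p, hp⟩ := card_pos.1 (by omega : 0 < (A ∩ D).card)
      obtain ⟨q, hq⟩ := card_pos.1 (by omega : 0 < (A' ∩ C).card)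
      rw [mem_inter] at hp hq
      have hpq : p ≠ q := by
        rintro rfl
        exact (disjoint_left.1 hAA) hp.1 hq.1
      have e3 := huniq b1 hb1 b2 hb2 p q hpq (hA hp.1) (hC hq.2) (hD hp.2) (hA' hq.1)
      subst e3
      have h6 := card_le_card (union_subset hA hA')
      rw [card_union_of_disjoint hAA, hA3, hA'3, h5 b1 hb1] at h6
      omega
    have hle1 : (A ∩ C).card ≤ 3 := hA3 ▸ card_le_card inter_subset_left
    have hcase : (A ∩ C).card = 2 ∨ (A ∩ C).card = 1 := by omega
    rcases hcase with hc | hc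
    · exact main A A' C D b1 b2 b3 b4 hb1 hb2 hb3 hb4 hAb hA'b hCb hDb hA3 hA'3 hAA hCD hun hc
        (by omega) (by omega) (by omega)
    · exact main A A' D C b1 b2 b4 b3 hb1 hb2 hb4 hb3 hAb hA'b hDb hCb hA3 hA'3 hAA hCD.symm
        (by rw [hun, union_comm]) (by omega) (by omega) (by omega) (by omega)

end Pool.Agent.Lib.MP_df5da3_co
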