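import Pool.Agent.Lib.MP_df5da3_co.Global

set_option autoImplicit false
set_option linter.unusedSectionVars false

namespace Pool.Agent.Lib.MP_df5da3_co

open Finset

variable {V : Type*} [Fintype V] [DecidableEq V]

/-- the ternary relation of a family of triples -/
def Rel (H : Finset (Finset V)) (x y z : V) : Prop :=
  x ≠ y ∧ x ≠ z ∧ y ≠ z ∧ ({x, y, z} : Finset V) ∈ H

/-- a repeated disjoint union -/
def Rep (H : Finset (Finset V)) : Prop :=
  ∃ A ∈ H, ∃ B ∈ H, ∃ C ∈ H, ∃ D ∈ H,
    Disjoint A B ∧ Disjoint C D ∧ A ∪ B = C ∪ D ∧ A ≠ C ∧ A ≠ D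

lemma rel_good {H : Finset (Finset V)} (hR : ¬ Rep H) : Good (Rel H) where
  s12 := by
    rintro x y z ⟨h1, h2, h3, h4⟩
    refine ⟨h1.symm, h3, h2, ?_⟩
    rwa [insert_comm]
  s23 := by
    rintro x y z ⟨h1, h2, h3, h4⟩
    refine ⟨h2, h1, h3.symm, ?_⟩
    rwa [pair_comm]
  ne := fun h => h.1
  int := by
    rintro p q r s c d ⟨a1, a2, a3, a4⟩ ⟨b1, b2, b3, b4⟩ ⟨c1, c2, c3, c4⟩ ⟨d1, d2, d3, d4⟩ hcd
    by_contra hcon
    push Not at hcon
    obtain ⟨h1, h2, h3, h4⟩ := hcon
    apply hR
    refine ⟨_, a4, _, d4, _, b4, _, c4, ?_, ?_, ?_, ?_, ?_⟩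
    · rw [disjoint_left]
      intro t ht
      simp only [mem_insert, mem_singleton] at ht ⊢
      rintro (rfl | rfl | rfl)
      · rcases ht with ht | ht | ht
        · exact h1 ht.symm
        · exact h3 ht.symm
        · exact c2 ht
      · rcases ht with ht | ht | ht
        · exact h2 ht.symm
        · exact h4 ht.symm
        · exact c3 ht
      · rcases ht with ht | ht | ht
        · exact b2 ht.symm
        · exact b3 ht.symm
        · exact hcd ht.symm
    · rw [disjoint_left]
      intro t ht
      simp only [mem_insert, mem_singleton] at ht ⊢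
      rintro (rfl | rfl | rfl)
      · rcases ht with ht | ht | ht
        · exact h1 ht.symm
        · exact h3 ht.symm
        · exact d2 ht
      · rcases ht with ht | ht | ht
        · exact h2 ht.symm
        · exact h4 ht.symm
        · exact d3 ht
      · rcases ht with ht | ht | ht
        · exact a2 ht.symm
        · exact a3 ht.symm
        · exact hcd ht
    · ext t
      simp only [mem_union, mem_insert, mem_singleton]
      tauto
    · intro h
      have : c ∈ ({p, q, d} : Finset V) := by rw [← h]; simp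
      simp only [mem_insert, mem_singleton] at this
      rcases this with h | h | h
      · exact a2 h.symm
      · exact a3 h.symm
      · exact hcd h
    · intro h
      have : p ∈ ({r, s, c} : Finset V) := by rw [← h]; simp
      simp only [mem_insert, mem_singleton] at this
      rcases this with h | h | h
      · exact h1 h
      · exact h2 h
      · exact a2 h

open Classical in
lemma six_card {H : Finset (Finset V)} (h3 : ∀ e ∈ H, e.card = 3) :
    6 * H.card ≤ (univ.filter (fun p : V × V × V => Rel H p.1 p.2.1 p.2.2)).card := by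
  set Tr := univ.filter (fun p : V × V × V => Rel H p.1 p.2.1 p.2.2) with hTr
  have hmaps : ∀ p ∈ Tr, ({p.1, p.2.1, p.2.2} : Finset V) ∈ H := by
    intro p hp
    rw [hTr, mem_filter] at hp
    exact hp.2.2.2.2
  rw [card_eq_sum_card_fiberwise hmaps]
  have : ∀ e ∈ H, 6 ≤ (Tr.filter (fun p => ({p.1, p.2.1, p.2.2} : Finset V) = e)).card := by
    intro e he
    obtain ⟨a, b, c, hab, hac, hbc, rfl⟩ := card_eq_three.1 (h3 e he)
    have hsub : ({(a, b, c), (a, c, b), (b, a, c), (b, c, a), (c, a, b), (c, b, a)} :
        Finset (V × V × V)) ⊆ Tr.filter (fun p => ({p.1, p.2.1, p.2.2} : Finset V) = {a, b, c}) := by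
      intro p hp
      have key : ∀ x y z : V, x ≠ y → x ≠ z → y ≠ z → ({x, y, z} : Finset V) = {a, b, c} →
          (x, y, z) ∈ Tr.filter (fun p => ({p.1, p.2.1, p.2.2} : Finset V) = {a, b, c}) := by
        intro x y z h1 h2 h3 h4
        rw [mem_filter, hTr, mem_filter]
        exact ⟨⟨mem_univ _, h1, h2, h3, by simp only [h4]; exact he⟩, h4⟩
      simp only [mem_insert, mem_singleton] at hp
      rcases hp with rfl | rfl | rfl | rfl | rfl | rfl
      · exact key _ _ _ hab hac hbc rfl
      · exact key _ _ _ hac hab hbc.symm (by ext t; simp; tauto)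
      · exact key _ _ _ hab.symm hbc hac (by ext t; simp; tauto)
      · exact key _ _ _ hbc hab.symm hac.symm (by ext t; simp; tauto)
      · exact key _ _ _ hac.symm hbc.symm hab (by ext t; simp; tauto)
      · exact key _ _ _ hbc.symm hac.symm hab.symm (by ext t; simp; tauto)
    refine le_trans (le_of_eq ?_) (card_le_card hsub)
    rw [card_insert_of_notMem, card_insert_of_notMem, card_insert_of_notMem,
      card_insert_of_notMem, card_insert_of_notMem, card_singleton]
    all_goals simp [hab, hac, hbc, hab.symm, hac.symm, hbc.symm]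
  have h6 := card_nsmul_le_sum _ _ _ this
  rw [smul_eq_mul, mul_comm] at h6
  exact h6

/-- **Main bound**: a family of triples without repeated disjoint union has at most `C(v,2)`
members. -/
theorem card_le_choose {H : Finset (Finset V)} (h3 : ∀ e ∈ H, e.card = 3) (hR : ¬ Rep H) :
    H.card ≤ (Fintype.card V).choose 2 := by
  classical
  have h1 := six_card h3
  have h2 := card_triples_le (rel_good hR)
  have h4 : (6 : ℚ) * H.card ≤ 3 * ((Fintype.card V : ℚ) * ((Fintype.card V : ℚ) - 1)) := by
    refine le_trans ?_ h2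
    have : ((6 * H.card : ℕ) : ℚ) ≤ _ := Nat.cast_le.2 h1
    push_cast at this
    convert this using 1
  have h5 : ((Fintype.card V).choose 2 : ℚ) = (Fintype.card V : ℚ) * ((Fintype.card V : ℚ) - 1) / 2 :=
    Nat.cast_choose_two ℚ _
  have h6 : (H.card : ℚ) ≤ ((Fintype.card V).choose 2 : ℚ) := by
    rw [h5]; linarith
  exact_mod_cast h6

/-- the star family has no repeated disjoint union -/
lemma star_family (n : ℕ) : ∃ H : Finset (Finset (Fin (n + 1))), (∀ e ∈ H, e.card = 3) ∧
    H.card = n.choose 2 ∧ ¬ Rep H := by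
  classical
  refine ⟨(powersetCard 2 (univ.erase (0 : Fin (n + 1)))).image (insert 0), ?_, ?_, ?_⟩
  · intro e he
    rw [mem_image] at he
    obtain ⟨s, hs, rfl⟩ := he
    rw [mem_powersetCard] at hs
    rw [card_insert_of_notMem (fun h => (mem_erase.1 (hs.1 h)).1 rfl), hs.2]
  · rw [card_image_of_injOn, card_powersetCard, card_erase_of_mem (mem_univ _), card_univ,
      Fintype.card_fin]
    · rfl
    · intro s hs t ht hst
      rw [mem_coe, mem_powersetCard] at hs ht
      have h0s : (0 : Fin (n + 1)) ∉ s := fun h => (mem_erase.1 (hs.1 h)).1 rfl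
      have h0t : (0 : Fin (n + 1)) ∉ t := fun h => (mem_erase.1 (ht.1 h)).1 rfl
      have := congrArg (fun u => u.erase (0 : Fin (n + 1))) hst
      simp only [erase_insert h0s, erase_insert h0t] at this
      exact this
  · rintro ⟨A, hA, B, hB, _, _, _, _, hd, _⟩
    rw [mem_image] at hA hB
    obtain ⟨s, _, rfl⟩ := hA
    obtain ⟨t, _, rfl⟩ := hB
    rw [disjoint_left] at hd
    exact hd (mem_insert_self 0 s) (mem_insert_self 0 t)

end Pool.Agent.Lib.MP_df5da3_co
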