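import Pool.Agent.Lib.MP_df5da3_co.Block

set_option autoImplicit false
set_option linter.unusedSectionVars false

namespace Pool.Agent.Lib.MP_df5da3_co

open Finset

open Classical in
lemma sum_ne (V : Type*) [Fintype V] [DecidableEq V] :
    ∑ x : V, ∑ y : V, (if x ≠ y then (1:ℚ) else 0) = (Fintype.card V : ℚ) * ((Fintype.card V : ℚ) - 1) := by
  have h1 : ∀ x : V, ∑ y : V, (if x ≠ y then (1:ℚ) else 0) = (Fintype.card V : ℚ) - 1 := by
    intro x
    rw [← sum_filter, sum_const, nsmul_eq_mul, mul_one]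
    have : univ.filter (fun y => x ≠ y) = univ.erase x := by
      ext y; simp [ne_comm]
    rw [this, card_erase_of_mem (mem_univ x), Nat.cast_sub (by
      rw [card_univ]; exact Fintype.card_pos_iff.2 ⟨x⟩)]
    simp
  simp only [h1, sum_const, nsmul_eq_mul, card_univ]

section defs

variable {V : Type*} [Fintype V] [DecidableEq V] {E : V → V → V → Prop} (g : Good E)
include g

open Classical in
lemma sum_first :
    ∑ x : V, ∑ y : V, ∑ _z ∈ N E x y, (1 / ((N E x y).card : ℚ)) ≤
      ∑ x : V, ∑ y : V, if x ≠ y then (1:ℚ) else 0 := by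
  apply sum_le_sum
  intro x _
  apply sum_le_sum
  intro y _
  rw [sum_const, nsmul_eq_mul]
  rcases Nat.eq_zero_or_pos (N E x y).card with h | h
  · rw [h]
    split_ifs <;> norm_num
  · obtain ⟨z, hz⟩ := card_pos.1 h
    rw [mem_N] at hz
    rw [if_pos (g.ne hz), mul_one_div_cancel]
    exact_mod_cast h.ne'

open Classical in
lemma sum_second :
    ∑ x : V, ∑ y : V, ∑ z ∈ N E x y, ∑ u ∈ (N E x y).erase z, W E x y z u ≤
      ∑ z : V, ∑ u : V, if z ≠ u then (1:ℚ) else 0 := by
  have h1 : ∀ x y : V, ∑ z ∈ N E x y, ∑ u ∈ (N E x y).erase z, W E x y z u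
      = ∑ z : V, ∑ u : V, if (z ≠ u ∧ (x, y) ∈ GO E z u) then W E x y z u else 0 := by
    intro x y
    unfold N
    rw [sum_filter]
    apply sum_congr rfl
    intro z _
    split_ifs with hz
    · rw [← sum_filter]
      apply sum_congr _ (fun _ _ => rfl)
      ext u
      simp only [mem_erase, mem_filter, mem_univ, true_and, mem_GO]
      constructor
      · rintro ⟨h1, h2⟩; exact ⟨h1.symm, hz, h2⟩
      · rintro ⟨h1, _, h2⟩; exact ⟨h1.symm, h2⟩
    · symm
      apply sum_eq_zero
      intro u _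
      rw [if_neg]
      rintro ⟨_, h2⟩
      rw [mem_GO] at h2
      exact hz h2.1
  simp only [h1]
  have h2 : ∑ x : V, ∑ y : V, ∑ z : V, ∑ u : V, (if (z ≠ u ∧ (x, y) ∈ GO E z u) then W E x y z u else 0)
      = ∑ z : V, ∑ u : V, ∑ x : V, ∑ y : V, (if (z ≠ u ∧ (x, y) ∈ GO E z u) then W E x y z u else 0) := by
    have s1 : ∀ x : V, ∑ y : V, ∑ z : V, ∑ u : V, (if (z ≠ u ∧ (x, y) ∈ GO E z u) then W E x y z u else 0)
        = ∑ z : V, ∑ u : V, ∑ y : V, (if (z ≠ u ∧ (x, y) ∈ GO E z u) then W E x y z u else 0) := by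
      intro x
      rw [sum_comm]
      apply sum_congr rfl
      intro z _
      rw [sum_comm]
    simp only [s1]
    rw [sum_comm]
    apply sum_congr rfl
    intro z _
    rw [sum_comm]
  rw [h2]
  apply sum_le_sum
  intro z _
  apply sum_le_sum
  intro u _
  split_ifs with hzu
  · have h3 := sum_W_le g z u hzu
    have h4 : ∑ x : V, ∑ y : V, (if (z ≠ u ∧ (x, y) ∈ GO E z u) then W E x y z u else 0)
        = ∑ p ∈ GO E z u, W E p.1 p.2 z u := by
      rw [← Fintype.sum_prod_type' (f := fun x y => (if (z ≠ u ∧ (x, y) ∈ GO E z u) then W E x y z u else 0))]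
      rw [← sum_filter]
      apply sum_congr _ (fun _ _ => rfl)
      ext p
      simp only [mem_filter, mem_univ, true_and]
      constructor
      · rintro ⟨_, h⟩; exact h
      · intro h; exact ⟨hzu, h⟩
    rw [h4]
    exact h3
  · apply le_of_eq
    apply sum_eq_zero
    intro x _
    apply sum_eq_zero
    intro y _
    rw [if_neg]
    rintro ⟨h, _⟩
    exact hzu h

open Classical in
lemma sum_w_le :
    ∑ x : V, ∑ y : V, ∑ z : V, (if E x y z then w E x y z else 0) ≤
      2 * ((Fintype.card V : ℚ) * ((Fintype.card V : ℚ) - 1)) := by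
  have h1 : ∀ x y : V, ∑ z : V, (if E x y z then w E x y z else 0)
      = ∑ _z ∈ N E x y, (1 / ((N E x y).card : ℚ))
        + ∑ z ∈ N E x y, ∑ u ∈ (N E x y).erase z, W E x y z u := by
    intro x y
    rw [← sum_filter, ← sum_add_distrib]
    apply sum_congr
    · ext z; simp
    · intro z _
      rfl
  simp only [h1, sum_add_distrib]
  have a := sum_first g
  have b := sum_second g
  rw [sum_ne V] at a b
  linarith

open Classical in
/-- **Global inequality** for ordered triples. -/
theorem card_triples_le :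
    ((univ.filter (fun p : V × V × V => E p.1 p.2.1 p.2.2)).card : ℚ) ≤
      3 * ((Fintype.card V : ℚ) * ((Fintype.card V : ℚ) - 1)) := by
  have hS := sum_w_le g
  set f : V → V → V → ℚ := fun x y z => if E x y z then w E x y z else 0 with hf
  have hcard : ((univ.filter (fun p : V × V × V => E p.1 p.2.1 p.2.2)).card : ℚ)
      = ∑ x : V, ∑ y : V, ∑ z : V, if E x y z then (1:ℚ) else 0 := by
    rw [card_filter]
    push_cast
    rw [Fintype.sum_prod_type]
    apply sum_congr rfl
    intro x _
    rw [Fintype.sum_prod_type]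
  -- rotations
  have r1 : ∑ x : V, ∑ y : V, ∑ z : V, f y z x = ∑ x : V, ∑ y : V, ∑ z : V, f x y z := by
    rw [sum_comm]
    apply sum_congr rfl
    intro y _
    rw [sum_comm]
  have r2 : ∑ x : V, ∑ y : V, ∑ z : V, f z x y = ∑ x : V, ∑ y : V, ∑ z : V, f x y z := by
    have s1 : ∀ x : V, ∑ y : V, ∑ z : V, f z x y = ∑ z : V, ∑ y : V, f z x y := fun x => sum_comm
    simp only [s1]
    rw [sum_comm]
  have hloc : ∑ x : V, ∑ y : V, ∑ z : V, 2 * (if E x y z then (1:ℚ) else 0) ≤
      ∑ x : V, ∑ y : V, ∑ z : V, (f x y z + f y z x + f z x y) := by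
    apply sum_le_sum
    intro x _
    apply sum_le_sum
    intro y _
    apply sum_le_sum
    intro z _
    simp only [hf]
    by_cases h : E x y z
    · rw [if_pos h, if_pos h, if_pos (g.r h), if_pos (g.r2 h)]
      have := local_ineq g h
      linarith
    · rw [if_neg h, if_neg h, if_neg (fun h' => h (g.r2 h')), if_neg (fun h' => h (g.r h'))]
      norm_num
  simp only [sum_add_distrib] at hloc
  rw [r1, r2] at hloc
  simp only [← mul_sum] at hloc
  rw [← hcard] at hloc
  linarith

end defs

end Pool.Agent.Lib.MP_df5da3_co
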