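import Pool.Agent.Lib.MP_df5da3_co.Basic

set_option autoImplicit false
set_option linter.unusedSectionVars false

namespace Pool.Agent.Lib.MP_df5da3_co

open Finset

section defs

variable {V : Type*} [Fintype V] [DecidableEq V] (E : V → V → V → Prop)

/-- charge received by the pair `y, z` on behalf of `x` -/
noncomputable def w (y z x : V) : ℚ :=
  1 / ((N E y z).card : ℚ) + ∑ u ∈ (N E y z).erase x, W E y z x u

/-- one-sided vertices at `x`, adjacent towards `y` -/
noncomputable def S (x y z : V) : Finset V :=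
  (N E y z).filter (fun u => u ≠ x ∧ cn E z x u ≠ {y} ∧ cn E y x u = {z})

/-- two-sided vertices at `x` -/
noncomputable def T (x y z : V) : Finset V :=
  (N E y z).filter (fun u => u ≠ x ∧ cn E z x u ≠ {y} ∧ cn E y x u ≠ {z})

/-- isolated vertices at `x` -/
noncomputable def I0 (x y z : V) : Finset V :=
  (N E y z).filter (fun u => u ≠ x ∧ cn E z x u = {y} ∧ cn E y x u = {z})

/-- one-sided vertices at `x` adjacent to a two-sided vertex at `y` -/
noncomputable def K (x y z : V) : Finset V :=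
  (S E x y z).filter (fun u => (T E y x z ∩ cn E z x u).Nonempty)

variable {E}

lemma mem_S {x y z u : V} :
    u ∈ S E x y z ↔ E y z u ∧ u ≠ x ∧ cn E z x u ≠ {y} ∧ cn E y x u = {z} := by
  simp [S]

lemma mem_T {x y z u : V} :
    u ∈ T E x y z ↔ E y z u ∧ u ≠ x ∧ cn E z x u ≠ {y} ∧ cn E y x u ≠ {z} := by
  simp [T]

lemma mem_I0 {x y z u : V} :
    u ∈ I0 E x y z ↔ E y z u ∧ u ≠ x ∧ cn E z x u = {y} ∧ cn E y x u = {z} := by
  simp [I0]

lemma mem_K {x y z u : V} :
    u ∈ K E x y z ↔ u ∈ S E x y z ∧ ∃ v, v ∈ T E y x z ∧ E z x v ∧ E z u v := by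
  rw [K, mem_filter]
  simp only [Finset.Nonempty, mem_inter, mem_cn]

lemma exists_ne {s : Finset V} {y : V} (hy : y ∈ s) (hs : s ≠ {y}) : ∃ b ∈ s, b ≠ y := by
  by_contra hcon
  push Not at hcon
  apply hs
  ext b
  rw [mem_singleton]
  exact ⟨fun h => hcon b h, fun h => h ▸ hy⟩

lemma ne_singleton {s : Finset V} {y b : V} (hb : b ∈ s) (hby : b ≠ y) : s ≠ {y} := by
  intro h
  rw [h, mem_singleton] at hb
  exact hby hb

variable (g : Good E)
include g

lemma T_comm (x y z : V) : T E x y z = T E x z y := by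
  ext u
  rw [mem_T, mem_T]
  constructor
  · rintro ⟨h1, h2, h3, h4⟩; exact ⟨g.s12 h1, h2, h4, h3⟩
  · rintro ⟨h1, h2, h3, h4⟩; exact ⟨g.s12 h1, h2, h4, h3⟩

lemma T_ap {x y z u : V} (h : E x y z) (hu : u ∈ T E x y z) : ∃ a, a ∈ Ap E y z x u := by
  rw [mem_T] at hu
  obtain ⟨h1, h2, h3, h4⟩ := hu
  have hy : y ∈ cn E z x u := by rw [mem_cn]; exact ⟨g.r2 h, g.s23 (g.s12 h1)⟩
  have hz : z ∈ cn E y x u := by rw [mem_cn]; exact ⟨g.s12 h, g.s23 h1⟩
  obtain ⟨b, hb, hby⟩ := exists_ne hy h3
  obtain ⟨a, ha, haz⟩ := exists_ne hz h4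
  rw [mem_cn] at hb ha
  have hab : a = b := g.str h2.symm ha.1 ha.2 haz hb.1 hb.2 hby (g.ne h1)
  subst hab
  exact ⟨a, by rw [mem_Ap]; exact ⟨ha, hb⟩⟩

lemma T_of_ap {x y z u a : V} (hu : E y z u) (hux : u ≠ x) (ha : a ∈ Ap E y z x u) :
    u ∈ T E x y z := by
  rw [mem_Ap] at ha
  rw [mem_T]
  refine ⟨hu, hux, ?_, ?_⟩
  · apply ne_singleton (b := a)
    · rw [mem_cn]; exact ha.2
    · exact (g.ne13 ha.1.1).symm
  · apply ne_singleton (b := a)
    · rw [mem_cn]; exact ha.1
    · exact (g.ne13 ha.2.1).symm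

/-- common neighbours lie in the sets on the other side -/
lemma cn_sub {x y z u : V} (hu : E y z u) (hux : u ≠ x) :
    cn E z x u ⊆ insert y (S E y x z ∪ T E y x z) := by
  intro v hv
  rw [mem_cn] at hv
  rw [mem_insert, mem_union, mem_S, mem_T]
  by_cases hvy : v = y
  · exact Or.inl hvy
  · right
    have h1 : E x z v := g.s12 hv.1
    have h2 : cn E z y v ≠ {x} := by
      apply ne_singleton (b := u) _ hux
      rw [mem_cn]
      exact ⟨g.s12 hu, g.s23 hv.2⟩
    by_cases h3 : cn E x y v = {z}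
    · left; exact ⟨h1, hvy, h2, h3⟩
    · right; exact ⟨h1, hvy, h2, h3⟩

lemma cn_sub_of_notMem_K {x y z u : V} (hu : u ∈ S E x y z) (hK : u ∉ K E x y z) :
    cn E z x u ⊆ insert y (S E y x z) := by
  intro v hv
  have hS := mem_S.1 hu
  have h1 := cn_sub g hS.1 hS.2.1 hv
  rw [mem_insert, mem_union] at h1
  rw [mem_insert]
  rcases h1 with h1 | h1 | h1
  · exact Or.inl h1
  · exact Or.inr h1
  · exfalso
    apply hK
    rw [mem_K]
    rw [mem_cn] at hv
    exact ⟨hu, v, h1, hv.1, hv.2⟩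

lemma sum_erase {x y z : V} (f : V → ℚ) :
    ∑ u ∈ (N E y z).erase x, f u = ∑ u ∈ T E x y z, f u + ∑ u ∈ S E x y z, f u
      + ∑ u ∈ S E x z y, f u + ∑ u ∈ I0 E x y z, f u := by
  rw [← Finset.sum_filter_add_sum_filter_not _ (fun u => cn E z x u = {y}),
    ← Finset.sum_filter_add_sum_filter_not (filter (fun u => cn E z x u = {y}) _) (fun u => cn E y x u = {z}),
    ← Finset.sum_filter_add_sum_filter_not (filter (fun u => ¬ cn E z x u = {y}) _) (fun u => cn E y x u = {z})]
  have h1 : filter (fun u => cn E y x u = {z}) (filter (fun u => cn E z x u = {y}) ((N E y z).erase x))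
      = I0 E x y z := by
    ext u
    rw [mem_I0]
    simp only [mem_filter, mem_erase, mem_N]
    tauto
  have h2 : filter (fun u => ¬ cn E y x u = {z}) (filter (fun u => cn E z x u = {y}) ((N E y z).erase x))
      = S E x z y := by
    ext u
    rw [mem_S]
    simp only [mem_filter, mem_erase, mem_N]
    constructor
    · rintro ⟨⟨⟨h1, h2⟩, h3⟩, h4⟩
      exact ⟨g.s12 h2, h1, h4, h3⟩
    · rintro ⟨h1, h2, h3, h4⟩
      exact ⟨⟨⟨h2, g.s12 h1⟩, h4⟩, h3⟩
  have h3 : filter (fun u => cn E y x u = {z}) (filter (fun u => ¬ cn E z x u = {y}) ((N E y z).erase x))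
      = S E x y z := by
    ext u
    rw [mem_S]
    simp only [mem_filter, mem_erase, mem_N]
    tauto
  have h4 : filter (fun u => ¬ cn E y x u = {z}) (filter (fun u => ¬ cn E z x u = {y}) ((N E y z).erase x))
      = T E x y z := by
    ext u
    rw [mem_T]
    simp only [mem_filter, mem_erase, mem_N]
    tauto
  rw [h1, h2, h3, h4]
  ring

lemma card_N {x y z : V} (h : E x y z) :
    ((N E y z).card : ℚ) = 1 + (T E x y z).card + (S E x y z).card + (S E x z y).card
      + (I0 E x y z).card := by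
  have h1 := sum_erase g (x := x) (y := y) (z := z) (fun _ => (1:ℚ))
  simp only [sum_const, nsmul_eq_mul, mul_one] at h1
  have hx : x ∈ N E y z := by rw [mem_N]; exact g.r h
  have h2 := card_erase_add_one hx
  have h3 : ((N E y z).card : ℚ) = ((N E y z).erase x).card + 1 := by
    rw [← h2]; push_cast; ring
  rw [h3, h1]
  ring

/-- first lower bound: drop the isolated vertices -/
lemma w_lower {x y z : V} (h : E x y z) :
    1 / (1 + (T E x y z).card + (S E x y z).card + (S E x z y).card : ℚ)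
      + ∑ u ∈ T E x y z, W E y z x u + ∑ u ∈ S E x y z, W E y z x u
      + ∑ u ∈ S E x z y, W E y z x u ≤ w E y z x := by
  unfold w
  rw [card_N g h, sum_erase g]
  have h1 : ∀ u ∈ I0 E x y z, W E y z x u = 1 / 2 := by
    intro u hu
    rw [mem_I0] at hu
    rw [W_single g (g.r h) hu.1 hu.2.1.symm hu.2.2.2, hu.2.2.1, card_singleton]
    norm_num
  rw [sum_congr rfl h1, sum_const, nsmul_eq_mul]
  set n : ℚ := (T E x y z).card + (S E x y z).card + (S E x z y).card with hn
  have hn0 : 0 ≤ n := by positivity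
  have key : ∀ i : ℕ, 1 / (1 + n) ≤ 1 / (1 + n + i) + i * (1 / 2) := by
    intro i
    rcases Nat.eq_zero_or_pos i with hi | hi
    · subst hi; simp
    · have hi1 : (1:ℚ) ≤ i := by exact_mod_cast hi
      have e : 1 / (1 + n + i) + i * (1 / 2) - 1 / (1 + n)
          = (i * ((1 + n) * (1 + n + i) - 2)) / (2 * ((1 + n) * (1 + n + i))) := by
        field_simp
        ring
      have h2 : 0 ≤ (i * ((1 + n) * (1 + n + i) - 2)) / (2 * ((1 + n) * (1 + n + i))) := by
        apply div_nonneg _ (by positivity)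
        apply mul_nonneg (by positivity)
        nlinarith
      linarith
  have e1 : (1 + (T E x y z).card + (S E x y z).card + (S E x z y).card : ℚ) = 1 + n := by
    rw [hn]; ring
  rw [e1]
  have := key (I0 E x y z).card
  linarith

/-- second lower bound: the one-sided vertices -/
lemma sum_S_lower {x y z : V} (h : E x y z) :
    (((S E x y z).card : ℚ) - (K E x y z).card) / (2 * (1 + (S E y x z).card))
      + ∑ u ∈ K E x y z, W E y z x u ≤ ∑ u ∈ S E x y z, W E y z x u := by
  have hsub : K E x y z ⊆ S E x y z := filter_subset _ _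
  rw [← Finset.sum_sdiff hsub]
  have h1 : ∀ u ∈ S E x y z \ K E x y z, 1 / (2 * (1 + (S E y x z).card) : ℚ) ≤ W E y z x u := by
    intro u hu
    rw [mem_sdiff] at hu
    have hS := mem_S.1 hu.1
    rw [W_single g (g.r h) hS.1 hS.2.1.symm hS.2.2.2]
    have h2 := card_le_card (cn_sub_of_notMem_K g hu.1 hu.2)
    have h3 := card_insert_le y (S E y x z)
    have h4 : ((cn E z x u).card : ℚ) ≤ 1 + (S E y x z).card := by
      have : (cn E z x u).card ≤ 1 + (S E y x z).card := by omega
      exact_mod_cast this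
    have h5 : 0 < (cn E z x u).card := by
      rw [card_pos]
      exact ⟨y, by rw [mem_cn]; exact ⟨g.r2 h, g.s23 (g.s12 hS.1)⟩⟩
    have h6 : (0:ℚ) < (cn E z x u).card := by exact_mod_cast h5
    apply one_div_le_one_div_of_le (by positivity)
    linarith
  have h2 := card_nsmul_le_sum _ _ _ h1
  rw [nsmul_eq_mul, card_sdiff_of_subset hsub, Nat.cast_sub (card_le_card hsub)] at h2
  have e : (((S E x y z).card : ℚ) - (K E x y z).card) / (2 * (1 + (S E y x z).card))
      = (((S E x y z).card : ℚ) - (K E x y z).card) * (1 / (2 * (1 + (S E y x z).card))) := by ring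
  rw [e]
  linarith

end defs

end Pool.Agent.Lib.MP_df5da3_co
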