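import Mathlib

set_option autoImplicit false

namespace Pool.Agent.Lib.MP_df5da3_co

/-! Numerical inequalities for the local charging argument. -/

lemma int_cons (n : ℤ) : 0 ≤ n * (n - 1) := by
  rcases le_or_gt n 0 with h | h
  · nlinarith
  · nlinarith

lemma rat_cons (a b : ℕ) : (0:ℚ) ≤ ((a:ℚ) - b) * ((a:ℚ) - b - 1) := by
  have := int_cons ((a:ℤ) - b)
  exact_mod_cast this

/-- pair piece without special vertices -/
lemma pair0 (a b : ℕ) :
    2 - 2 / (1 + (max a b : ℕ) : ℚ) ≤ (a:ℚ) / (1 + b) + (b:ℚ) / (1 + a) := by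
  wlog h : b ≤ a generalizing a b with H
  · have := H b a (by omega)
    rw [max_comm]
    linarith
  rw [max_eq_left h]
  have ha : (0:ℚ) ≤ a := Nat.cast_nonneg a
  have hb : (0:ℚ) ≤ b := Nat.cast_nonneg b
  have h1 := rat_cons a b
  have : (a:ℚ) / (1 + b) + (b:ℚ) / (1 + a) - (2 - 2 / (1 + (a:ℚ)))
      = ((a:ℚ) - b) * ((a:ℚ) - b - 1) / ((1 + a) * (1 + b)) := by
    field_simp
    ring
  have h2 : 0 ≤ ((a:ℚ) - b) * ((a:ℚ) - b - 1) / ((1 + a) * (1 + b)) := by positivity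
  linarith

lemma pair0' (a b : ℕ) :
    1 - 1 / (1 + (max a b : ℕ) : ℚ) ≤ ((a:ℚ) / (1 + b) + (b:ℚ) / (1 + a)) / 2 := by
  have := pair0 a b
  have e : 2 / (1 + (max a b : ℕ) : ℚ) = 2 * (1 / (1 + (max a b : ℕ) : ℚ)) := by ring
  rw [e] at this
  linarith

/-- one special vertex on the `b` side, together with `1/(1+b)` -/
lemma pair1 (a b : ℕ) :
    1 - 1 / (2 * (1 + a) : ℚ) ≤ 1 / (1 + b : ℚ) + ((a:ℚ) / (1 + b) + ((b:ℚ) - 1) / (1 + a)) / 2 := by
  have ha : (0:ℚ) ≤ a := Nat.cast_nonneg a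
  have hb : (0:ℚ) ≤ b := Nat.cast_nonneg b
  have h1 := rat_cons b a
  have : 1 / (1 + b : ℚ) + ((a:ℚ) / (1 + b) + ((b:ℚ) - 1) / (1 + a)) / 2 - (1 - 1 / (2 * (1 + a) : ℚ))
      = ((b:ℚ) - a) * ((b:ℚ) - a - 1) / (2 * ((1 + a) * (1 + b))) := by
    field_simp
    ring
  have h2 : 0 ≤ ((b:ℚ) - a) * ((b:ℚ) - a - 1) / (2 * ((1 + a) * (1 + b))) := by positivity
  linarith

/-- one special vertex on each side -/
lemma pair2 (a b : ℚ) (ha : 0 ≤ a) (hb : 0 ≤ b) :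
    1 - 1 / (1 + a) - 1 / (1 + b) ≤ ((a - 1) / (1 + b) + (b - 1) / (1 + a)) / 2 := by
  have : ((a - 1) / (1 + b) + (b - 1) / (1 + a)) / 2 - (1 - 1 / (1 + a) - 1 / (1 + b))
      = (a - b) ^ 2 / (2 * ((1 + a) * (1 + b))) := by
    field_simp
    ring
  have h2 : 0 ≤ (a - b) ^ 2 / (2 * ((1 + a) * (1 + b))) := by positivity
  linarith

/-- one special vertex on the `d` side, arithmetic-geometric form -/
lemma pair3 (c d : ℚ) (hc : 0 ≤ c) (hd : 0 ≤ d) :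
    1 - 1 / (2 * (1 + d)) - 1 / (1 + c) ≤ (c / (1 + d) + (d - 1) / (1 + c)) / 2 := by
  have : (c / (1 + d) + (d - 1) / (1 + c)) / 2 - (1 - 1 / (2 * (1 + d)) - 1 / (1 + c))
      = (c - d) ^ 2 / (2 * ((1 + c) * (1 + d))) := by
    field_simp
    ring
  have h2 : 0 ≤ (c - d) ^ 2 / (2 * ((1 + c) * (1 + d))) := by positivity
  linarith

/-- the base inequality in terms of maxima -/
lemma base_max (m n k : ℚ) (hm : 0 ≤ m) (hn : 0 ≤ n) (hk : 0 ≤ k) :
    2 ≤ 1 / (1 + m + n) + 1 / (1 + m + k) + 1 / (1 + n + k) + (1 - 1 / (1 + m)) + (1 - 1 / (1 + n))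
      + (1 - 1 / (1 + k)) := by
  have key : ∀ x y : ℚ, 0 ≤ x → 0 ≤ y → 1 / (1 + x) * (1 / (1 + y)) ≤ 1 / (1 + x + y) := by
    intro x y hx hy
    rw [div_mul_div_comm, one_mul]
    apply one_div_le_one_div_of_le (by positivity)
    nlinarith [mul_nonneg hx hy]
  have h1 := key m n hm hn
  have h2 := key m k hm hk
  have h3 := key n k hn hk
  have hX1 : 1 / (1 + m) ≤ 1 := by rw [div_le_one (by positivity)]; linarith
  have hY1 : 1 / (1 + n) ≤ 1 := by rw [div_le_one (by positivity)]; linarith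
  have hZ1 : 1 / (1 + k) ≤ 1 := by rw [div_le_one (by positivity)]; linarith
  have hX0 : 0 ≤ 1 / (1 + m) := by positivity
  have hY0 : 0 ≤ 1 / (1 + n) := by positivity
  have hZ0 : 0 ≤ 1 / (1 + k) := by positivity
  set X := 1 / (1 + m)
  set Y := 1 / (1 + n)
  set Z := 1 / (1 + k)
  nlinarith [mul_nonneg (mul_nonneg (sub_nonneg.2 hX1) (sub_nonneg.2 hY1)) (sub_nonneg.2 hZ1),
    mul_nonneg (mul_nonneg hX0 hY0) hZ0]

/-- numerical case: no special vertices at all -/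
lemma numA000 (a b c d e h : ℕ) :
    (2:ℚ) ≤ 1 / (1 + a + c) + 1 / (1 + b + e) + 1 / (1 + d + h)
      + ((a:ℚ) / (1 + b) + (b:ℚ) / (1 + a)) / 2 + ((c:ℚ) / (1 + d) + (d:ℚ) / (1 + c)) / 2
      + ((e:ℚ) / (1 + h) + (h:ℚ) / (1 + e)) / 2 := by
  have p1 := pair0' a b
  have p2 := pair0' c d
  have p3 := pair0' e h
  have q := base_max (max a b : ℕ) (max c d : ℕ) (max e h : ℕ) (by positivity) (by positivity)
    (by positivity)
  have ha : (a:ℚ) ≤ (max a b : ℕ) := by exact_mod_cast le_max_left a b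
  have hb : (b:ℚ) ≤ (max a b : ℕ) := by exact_mod_cast le_max_right a b
  have hc : (c:ℚ) ≤ (max c d : ℕ) := by exact_mod_cast le_max_left c d
  have hd : (d:ℚ) ≤ (max c d : ℕ) := by exact_mod_cast le_max_right c d
  have he : (e:ℚ) ≤ (max e h : ℕ) := by exact_mod_cast le_max_left e h
  have hh : (h:ℚ) ≤ (max e h : ℕ) := by exact_mod_cast le_max_right e h
  have r1 : 1 / (1 + (max a b : ℕ) + (max c d : ℕ) : ℚ) ≤ 1 / (1 + a + c) := by
    apply one_div_le_one_div_of_le (by positivity); linarith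
  have r2 : 1 / (1 + (max a b : ℕ) + (max e h : ℕ) : ℚ) ≤ 1 / (1 + b + e) := by
    apply one_div_le_one_div_of_le (by positivity); linarith
  have r3 : 1 / (1 + (max c d : ℕ) + (max e h : ℕ) : ℚ) ≤ 1 / (1 + d + h) := by
    apply one_div_le_one_div_of_le (by positivity); linarith
  linarith

/-- absorbing the piece between two vertices whose sets contain a special vertex -/
lemma absorb (b d e h : ℕ) (hb : 1 ≤ b) (hd : 1 ≤ d) :
    1 / (1 + b : ℚ) + 1 / (1 + d : ℚ) ≤ 1 / (1 + b + e : ℚ) + 1 / (1 + d + h : ℚ)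
      + ((e:ℚ) / (1 + h) + (h:ℚ) / (1 + e)) / 2 := by
  have p3 := pair0' e h
  have he : (e:ℚ) ≤ (max e h : ℕ) := by exact_mod_cast le_max_left e h
  have hh : (h:ℚ) ≤ (max e h : ℕ) := by exact_mod_cast le_max_right e h
  set m : ℚ := ((max e h : ℕ) : ℚ) with hm
  have hm0 : 0 ≤ m := by rw [hm]; positivity
  have hb' : (1:ℚ) ≤ b := by exact_mod_cast hb
  have hd' : (1:ℚ) ≤ d := by exact_mod_cast hd
  have he0 : (0:ℚ) ≤ e := by positivity
  have hh0 : (0:ℚ) ≤ h := by positivity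
  have key : ∀ x y : ℚ, 1 ≤ x → 0 ≤ y → y ≤ m → 1 / (1 + x) ≤ 1 / (1 + x + y) + m / (2 * (2 + m)) := by
    intro x y hx hy hym
    have h1 : 1 / (1 + x + m) ≤ 1 / (1 + x + y) := by
      apply one_div_le_one_div_of_le (by positivity); linarith
    have h2 : 1 / (1 + x) - 1 / (1 + x + m) = m / ((1 + x) * (1 + x + m)) := by
      field_simp
      ring
    have h3 : m / ((1 + x) * (1 + x + m)) ≤ m / (2 * (2 + m)) := by
      apply div_le_div_of_nonneg_left hm0 (by positivity)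
      nlinarith
    linarith
  have k1 := key b e hb' he0 he
  have k2 := key d h hd' hh0 hh
  have k3 : m / (2 * (2 + m)) + m / (2 * (2 + m)) ≤ 1 - 1 / (1 + m) := by
    have : 1 - 1 / (1 + m) - (m / (2 * (2 + m)) + m / (2 * (2 + m))) = m / ((1 + m) * (2 + m)) := by
      field_simp
      ring
    have h2 : 0 ≤ m / ((1 + m) * (2 + m)) := by positivity
    linarith
  linarith

/-- numerical case: special vertices only at `x` -/
lemma numA100 (a b c d e h : ℕ) (L : ℚ) (hb : 1 ≤ b) (hd : 1 ≤ d)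
    (hL : 1 / (2 + a + c : ℚ) + min 1 (1 / (1 + a : ℚ) + 1 / (1 + c : ℚ)) / 2 ≤ L) :
    (2:ℚ) ≤ L + 1 / (1 + b + e) + 1 / (1 + d + h)
      + ((a:ℚ) / (1 + b) + ((b:ℚ) - 1) / (1 + a)) / 2 + ((c:ℚ) / (1 + d) + ((d:ℚ) - 1) / (1 + c)) / 2
      + ((e:ℚ) / (1 + h) + (h:ℚ) / (1 + e)) / 2 := by
  have p1 := pair1 a b
  have p2 := pair1 c d
  have p3 := absorb b d e h hb hd
  have ha0 : (0:ℚ) ≤ a := by positivity
  have hc0 : (0:ℚ) ≤ c := by positivity
  have e1 : 1 / (2 * (1 + a) : ℚ) = (1 / (1 + a : ℚ)) / 2 := by field_simp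
  have e2 : 1 / (2 * (1 + c) : ℚ) = (1 / (1 + c : ℚ)) / 2 := by field_simp
  rw [e1] at p1
  rw [e2] at p2
  have hpos : 0 ≤ 1 / (2 + a + c : ℚ) := by positivity
  have key : (1 / (1 + a : ℚ) + 1 / (1 + c : ℚ)) / 2 ≤ 1 / (2 + a + c : ℚ)
      + min 1 (1 / (1 + a : ℚ) + 1 / (1 + c : ℚ)) / 2 := by
    rcases le_total 1 (1 / (1 + a : ℚ) + 1 / (1 + c : ℚ)) with h1 | h1
    · rw [min_eq_left h1]
      have : 1 / (2 + a + c : ℚ) + 1 / 2 - (1 / (1 + a : ℚ) + 1 / (1 + c : ℚ)) / 2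
          = (a * (1 + c) ^ 2 + c * (1 + a) ^ 2) / (2 * ((1 + a) * (1 + c) * (2 + a + c))) := by
        field_simp
        ring
      have h2 : 0 ≤ (a * (1 + c) ^ 2 + c * (1 + a) ^ 2 : ℚ) / (2 * ((1 + a) * (1 + c) * (2 + a + c))) := by
        positivity
      linarith
    · rw [min_eq_right h1]
      linarith
  linarith

/-- contribution of one special side -/
lemma xpart (a c d : ℕ) (L : ℚ) (ha : 1 ≤ a) (hd : 1 ≤ d)
    (hL : 1 / (2 + a + c : ℚ) + min 1 (1 / (1 + a : ℚ) + 1 / (1 + c : ℚ)) / 2 ≤ L) :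
    (d = 1 → 1 / 3 ≤ L - 1 / (1 + a : ℚ) + ((c:ℚ) / (1 + d) + ((d:ℚ) - 1) / (1 + c)) / 2) ∧
    (2 ≤ d → 3 / 4 - 1 / (2 * (1 + d) : ℚ) ≤
      L - 1 / (1 + a : ℚ) + ((c:ℚ) / (1 + d) + ((d:ℚ) - 1) / (1 + c)) / 2) := by
  have ha1 : (1:ℚ) ≤ a := by exact_mod_cast ha
  have hd1 : (1:ℚ) ≤ d := by exact_mod_cast hd
  rcases Nat.eq_zero_or_pos c with hc | hc
  · subst hc
    have h1 : min 1 (1 / (1 + a : ℚ) + 1 / (1 + ((0:ℕ):ℚ))) = 1 := by
      apply min_eq_left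
      have : 0 ≤ 1 / (1 + a : ℚ) := by positivity
      simp only [Nat.cast_zero, add_zero, div_one]
      linarith
    rw [h1] at hL
    simp only [Nat.cast_zero, add_zero, zero_div, zero_add, div_one] at hL ⊢
    have h2 : 1 / (1 + a : ℚ) - 1 / (2 + a : ℚ) = 1 / ((1 + a) * (2 + a)) := by
      field_simp
      ring
    have h3 : 1 / ((1 + a) * (2 + a) : ℚ) ≤ 1 / 6 := by
      apply one_div_le_one_div_of_le (by norm_num)
      nlinarith
    constructor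
    · intro h
      subst h
      simp only [Nat.cast_one]
      linarith
    · intro h
      have hd2 : (2:ℚ) ≤ d := by exact_mod_cast h
      have : 0 ≤ 1 / (2 * (1 + d) : ℚ) := by positivity
      linarith
  · have hc1 : (1:ℚ) ≤ c := by exact_mod_cast hc
    have hA : 1 / (1 + a : ℚ) ≤ 1 / 2 := by
      apply one_div_le_one_div_of_le (by norm_num); linarith
    have hC : 1 / (1 + c : ℚ) ≤ 1 / 2 := by
      apply one_div_le_one_div_of_le (by norm_num); linarith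
    have h1 : min 1 (1 / (1 + a : ℚ) + 1 / (1 + c : ℚ)) = (1 / (1 + a : ℚ) + 1 / (1 + c : ℚ)) := by
      apply min_eq_right
      linarith
    rw [h1] at hL
    have h2 : 1 / (1 + a : ℚ) * (1 / (1 + c : ℚ)) ≤ 1 / (2 + a + c : ℚ) := by
      rw [div_mul_div_comm, one_mul]
      apply one_div_le_one_div_of_le (by positivity)
      nlinarith
    have h3 : 0 ≤ (1 / 2 - 1 / (1 + a : ℚ)) * (1 / 2 - 1 / (1 + c : ℚ)) :=
      mul_nonneg (by linarith) (by linarith)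
    have h4 := pair3 (c:ℚ) (d:ℚ) (by positivity) (by positivity)
    have h5 : 1 / (2 * (1 + d) : ℚ) ≤ 1 / 4 := by
      apply one_div_le_one_div_of_le (by norm_num); linarith
    have h6 : 3 / 4 - 1 / (2 * (1 + d) : ℚ) ≤
      L - 1 / (1 + a : ℚ) + ((c:ℚ) / (1 + d) + ((d:ℚ) - 1) / (1 + c)) / 2 := by
      nlinarith
    exact ⟨fun _ => by linarith, fun _ => h6⟩

/-- numerical case: special vertices at `x` and `y` -/
lemma numA110 (a b c d e h : ℕ) (L M : ℚ) (ha : 1 ≤ a) (hb : 1 ≤ b) (hd : 1 ≤ d) (hh : 1 ≤ h)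
    (hL : 1 / (2 + a + c : ℚ) + min 1 (1 / (1 + a : ℚ) + 1 / (1 + c : ℚ)) / 2 ≤ L)
    (hM : 1 / (2 + b + e : ℚ) + min 1 (1 / (1 + b : ℚ) + 1 / (1 + e : ℚ)) / 2 ≤ M) :
    (2:ℚ) ≤ L + M + 1 / (1 + d + h)
      + (((a:ℚ) - 1) / (1 + b) + ((b:ℚ) - 1) / (1 + a)) / 2
      + ((c:ℚ) / (1 + d) + ((d:ℚ) - 1) / (1 + c)) / 2
      + ((e:ℚ) / (1 + h) + ((h:ℚ) - 1) / (1 + e)) / 2 := by
  have p1 := pair2 (a:ℚ) (b:ℚ) (by positivity) (by positivity)
  obtain ⟨x1, x2⟩ := xpart a c d L ha hd hL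
  obtain ⟨y1, y2⟩ := xpart b e h M hb hh hM
  have hpos : 0 ≤ 1 / (1 + d + h : ℚ) := by positivity
  rcases Nat.lt_or_ge 1 d with h1 | h1
  · have h2 := x2 h1
    have hd2 : (2:ℚ) ≤ d := by exact_mod_cast h1
    have h5 : 1 / (2 * (1 + d) : ℚ) ≤ 1 / 6 := by
      apply one_div_le_one_div_of_le (by norm_num); linarith
    rcases Nat.lt_or_ge 1 h with h3 | h3
    · have h4 := y2 h3
      have hh2 : (2:ℚ) ≤ h := by exact_mod_cast h3
      have h6 : 1 / (2 * (1 + h) : ℚ) ≤ 1 / 6 := by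
        apply one_div_le_one_div_of_le (by norm_num); linarith
      linarith
    · have h3' : h = 1 := by omega
      have h4 := y1 h3'
      subst h3'
      have h6 : 1 / (2 * (1 + d) : ℚ) ≤ 1 / (1 + d + (1:ℕ) : ℚ) := by
        apply one_div_le_one_div_of_le (by positivity)
        push_cast
        linarith
      linarith
  · have h1' : d = 1 := by omega
    have h2 := x1 h1'
    subst h1'
    rcases Nat.lt_or_ge 1 h with h3 | h3
    · have h4 := y2 h3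
      have hh2 : (2:ℚ) ≤ h := by exact_mod_cast h3
      have h6 : 1 / (2 * (1 + h) : ℚ) ≤ 1 / (1 + (1:ℕ) + h : ℚ) := by
        apply one_div_le_one_div_of_le (by positivity)
        push_cast
        linarith
      linarith
    · have h3' : h = 1 := by omega
      have h4 := y1 h3'
      subst h3'
      have h6 : 1 / (1 + (1:ℕ) + (1:ℕ) : ℚ) = 1 / 3 := by norm_num
      linarith

/-- numerical case: special vertices everywhere -/
lemma numA111 (a b c d e h : ℕ) (L M K : ℚ) (ha : 1 ≤ a) (hb : 1 ≤ b) (hc : 1 ≤ c) (hd : 1 ≤ d)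
    (he : 1 ≤ e) (hh : 1 ≤ h)
    (hL : 1 / (2 + a + c : ℚ) + min 1 (1 / (1 + a : ℚ) + 1 / (1 + c : ℚ)) / 2 ≤ L)
    (hM : 1 / (2 + b + e : ℚ) + min 1 (1 / (1 + b : ℚ) + 1 / (1 + e : ℚ)) / 2 ≤ M)
    (hK : 1 / (2 + d + h : ℚ) + min 1 (1 / (1 + d : ℚ) + 1 / (1 + h : ℚ)) / 2 ≤ K) :
    (2:ℚ) ≤ L + M + K
      + (((a:ℚ) - 1) / (1 + b) + ((b:ℚ) - 1) / (1 + a)) / 2
      + (((c:ℚ) - 1) / (1 + d) + ((d:ℚ) - 1) / (1 + c)) / 2
      + (((e:ℚ) - 1) / (1 + h) + ((h:ℚ) - 1) / (1 + e)) / 2 := by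
  have p1 := pair2 (a:ℚ) (b:ℚ) (by positivity) (by positivity)
  have p2 := pair2 (c:ℚ) (d:ℚ) (by positivity) (by positivity)
  have p3 := pair2 (e:ℚ) (h:ℚ) (by positivity) (by positivity)
  have key : ∀ a c : ℕ, 1 ≤ a → 1 ≤ c → -(1/4) + (1 / (1 + a : ℚ) + 1 / (1 + c : ℚ)) ≤
      1 / (2 + a + c : ℚ) + min 1 (1 / (1 + a : ℚ) + 1 / (1 + c : ℚ)) / 2 := by
    intro a c ha hc
    have ha1 : (1:ℚ) ≤ a := by exact_mod_cast ha
    have hc1 : (1:ℚ) ≤ c := by exact_mod_cast hc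
    have hA : 1 / (1 + a : ℚ) ≤ 1 / 2 := by
      apply one_div_le_one_div_of_le (by norm_num); linarith
    have hC : 1 / (1 + c : ℚ) ≤ 1 / 2 := by
      apply one_div_le_one_div_of_le (by norm_num); linarith
    have h1 : min 1 (1 / (1 + a : ℚ) + 1 / (1 + c : ℚ)) = (1 / (1 + a : ℚ) + 1 / (1 + c : ℚ)) := by
      apply min_eq_right
      linarith
    rw [h1]
    have h2 : 1 / (1 + a : ℚ) * (1 / (1 + c : ℚ)) ≤ 1 / (2 + a + c : ℚ) := by
      rw [div_mul_div_comm, one_mul]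
      apply one_div_le_one_div_of_le (by positivity)
      nlinarith
    have h3 : 0 ≤ (1 / 2 - 1 / (1 + a : ℚ)) * (1 / 2 - 1 / (1 + c : ℚ)) :=
      mul_nonneg (by linarith) (by linarith)
    nlinarith
  have k1 := key a c ha hc
  have k2 := key b e hb he
  have k3 := key d h hd hh
  linarith

/-- the weight function for triangular pairs -/
def F (s t : ℕ) : ℚ :=
  if min s t ≤ 2 then 1 / 2 - 1 / ((max s t : ℕ) : ℚ) else 1 / ((min s t : ℕ) : ℚ)

lemma F_comm (s t : ℕ) : F s t = F t s := by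
  unfold F
  rw [min_comm, max_comm]

lemma F_sum_sorted (s t u : ℕ) (hs : 2 ≤ s) (hst : s ≤ t) (htu : t ≤ u) :
    F s t + F s u + F t u ≤ 1 := by
  have hs' : (2:ℚ) ≤ s := by exact_mod_cast hs
  have hst' : (s:ℚ) ≤ t := by exact_mod_cast hst
  have htu' : (t:ℚ) ≤ u := by exact_mod_cast htu
  unfold F
  rw [min_eq_left hst, max_eq_right hst, min_eq_left htu, max_eq_right htu,
    min_eq_left (hst.trans htu), max_eq_right (hst.trans htu)]
  have hu : 0 ≤ 1 / (u : ℚ) := by positivity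
  have ht : 0 ≤ 1 / (t : ℚ) := by positivity
  by_cases h1 : s ≤ 2
  · rw [if_pos h1, if_pos h1]
    by_cases h2 : t ≤ 2
    · rw [if_pos h2]
      have h3 : t = 2 := by omega
      have h4 : (t:ℚ) = 2 := by exact_mod_cast h3
      rw [h4]
      linarith
    · rw [if_neg h2]
      linarith
  · have h2 : ¬ t ≤ 2 := by omega
    rw [if_neg h1, if_neg h1, if_neg h2]
    have h3 : (3:ℚ) ≤ s := by
      have : 3 ≤ s := by omega
      exact_mod_cast this
    have h4 : 1 / (s:ℚ) ≤ 1 / 3 := one_div_le_one_div_of_le (by norm_num) h3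
    have h5 : 1 / (t:ℚ) ≤ 1 / 3 := one_div_le_one_div_of_le (by norm_num) (by linarith)
    linarith

lemma F_sum (s t u : ℕ) (hs : 2 ≤ s) (ht : 2 ≤ t) (hu : 2 ≤ u) :
    F s t + F s u + F t u ≤ 1 := by
  have c1 := F_comm s t
  have c2 := F_comm s u
  have c3 := F_comm t u
  rcases le_total s t with h1 | h1 <;> rcases le_total t u with h2 | h2 <;>
    rcases le_total s u with h3 | h3
  · exact F_sum_sorted s t u hs h1 h2
  · exact F_sum_sorted s t u hs h1 h2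
  · have := F_sum_sorted s u t hs h3 h2
    linarith
  · have := F_sum_sorted u s t hu h3 h1
    linarith
  · have := F_sum_sorted t s u ht h1 h3
    linarith
  · have := F_sum_sorted t u s ht h2 h3
    linarith
  · have := F_sum_sorted u t s hu h2 h1
    linarith
  · have := F_sum_sorted u t s hu h2 h1
    linarith

lemma F_nonneg (s t : ℕ) (hs : 2 ≤ s) : 0 ≤ F s t := by
  unfold F
  split_ifs with h
  · have h1 : (2:ℚ) ≤ ((max s t : ℕ) : ℚ) := by exact_mod_cast le_max_of_le_left hs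
    have h2 : 1 / ((max s t : ℕ) : ℚ) ≤ 1 / 2 := one_div_le_one_div_of_le (by norm_num) h1
    linarith
  · positivity

/-- one special vertex with its two neighbours -/
lemma V1 (a c s t : ℕ) (hs : 2 ≤ s) (ht : 2 ≤ t) (hsa : s ≤ 2 + a) (htc : t ≤ 2 + c) :
    min 1 (1 / (1 + a : ℚ) + 1 / (1 + c : ℚ)) / 2 ≤
      F s t / 2 + 1 / (2 * (s:ℚ)) + 1 / (2 * (t:ℚ)) := by
  wlog hst : s ≤ t generalizing a c s t with H
  · have := H c a t s ht hs htc hsa (by omega)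
    rw [F_comm s t, add_comm (1 / (1 + a : ℚ))]
    linarith
  have hs' : (2:ℚ) ≤ s := by exact_mod_cast hs
  have ht' : (2:ℚ) ≤ t := by exact_mod_cast ht
  have e1 : 1 / (2 * (s:ℚ)) = (1 / (s:ℚ)) / 2 := by field_simp
  have e2 : 1 / (2 * (t:ℚ)) = (1 / (t:ℚ)) / 2 := by field_simp
  rw [e1, e2]
  unfold F
  rw [min_eq_left hst, max_eq_right hst]
  have hm := min_le_left (1:ℚ) (1 / (1 + a : ℚ) + 1 / (1 + c : ℚ))
  by_cases h1 : s ≤ 2
  · rw [if_pos h1]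
    have h3 : s = 2 := by omega
    have h4 : (s:ℚ) = 2 := by exact_mod_cast h3
    rw [h4]
    linarith
  · rw [if_neg h1]
    have hm2 := min_le_right (1:ℚ) (1 / (1 + a : ℚ) + 1 / (1 + c : ℚ))
    have h3 : (3:ℚ) ≤ s := by
      have : 3 ≤ s := by omega
      exact_mod_cast this
    have hst' : (s:ℚ) ≤ t := by exact_mod_cast hst
    have h5 : (s:ℚ) ≤ 2 + a := by exact_mod_cast hsa
    have h6 : (t:ℚ) ≤ 2 + c := by exact_mod_cast htc
    have h7 : 1 / (1 + a : ℚ) ≤ 1 / ((s:ℚ) - 1) := by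
      apply one_div_le_one_div_of_le <;> linarith
    have h8 : 1 / (1 + c : ℚ) ≤ 1 / ((t:ℚ) - 1) := by
      apply one_div_le_one_div_of_le <;> linarith
    have h9 : 1 / ((s:ℚ) - 1) - 1 / (s:ℚ) = 1 / ((s:ℚ) * ((s:ℚ) - 1)) := by
      have : (s:ℚ) - 1 ≠ 0 := by linarith
      field_simp
      ring
    have h10 : 1 / ((t:ℚ) - 1) - 1 / (t:ℚ) = 1 / ((t:ℚ) * ((t:ℚ) - 1)) := by
      have : (t:ℚ) - 1 ≠ 0 := by linarith
      field_simp
      ring
    have h11 : 1 / ((s:ℚ) * ((s:ℚ) - 1)) ≤ 1 / (2 * (s:ℚ)) := by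
      apply one_div_le_one_div_of_le (by positivity)
      nlinarith
    have h12 : 1 / ((t:ℚ) * ((t:ℚ) - 1)) ≤ 1 / (2 * (s:ℚ)) := by
      apply one_div_le_one_div_of_le (by positivity)
      nlinarith
    rw [e1] at h11 h12
    linarith

/-- several special vertices with a common apex -/
lemma V2_zero (k : ℕ) (c : ℚ) (hc : 0 ≤ c) :
    1 / (2 + c) + 1 / 2 ≤ 1 / (1 + (2 + (k:ℚ)) + c) + (2 + (k:ℚ)) / 6
      + 1 / (2 * (1 + (2 + (k:ℚ)))) + 1 / (2 * (1 + (2 + (k:ℚ)) + c)) := by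
  rcases Nat.eq_zero_or_pos k with hk | hk
  · subst hk
    have : 1 / (1 + (2 + ((0:ℕ):ℚ)) + c) + (2 + ((0:ℕ):ℚ)) / 6
      + 1 / (2 * (1 + (2 + ((0:ℕ):ℚ)))) + 1 / (2 * (1 + (2 + ((0:ℕ):ℚ)) + c)) - (1 / (2 + c) + 1 / 2)
      = c / (2 * ((3 + c) * (2 + c))) := by
      have h1 : 1 + (2 + ((0:ℕ):ℚ)) + c = 3 + c := by push_cast; ring
      rw [h1]
      push_cast
      field_simp
      ring
    have h2 : 0 ≤ c / (2 * ((3 + c) * (2 + c))) := by positivity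
    linarith
  · obtain ⟨j, rfl⟩ := Nat.exists_eq_add_of_le hk
    have hj : (0:ℚ) ≤ j := by positivity
    have e : 1 / (1 + (2 + ((1 + j : ℕ):ℚ)) + c) + (2 + ((1 + j : ℕ):ℚ)) / 6
      + 1 / (2 * (1 + (2 + ((1 + j : ℕ):ℚ)))) + 1 / (2 * (1 + (2 + ((1 + j : ℕ):ℚ)) + c))
      - (1 / (2 + c) + 1 / 2)
      = (30 * c + 3 * c ^ 2 + 6 * j * c + 8 * j + 10 * j ^ 2 + 2 * j ^ 3
        + 24 * c * j + 4 * c ^ 2 * j + 10 * c * j ^ 2 + c * j ^ 3 + c ^ 2 * j ^ 2) / (6 * ((4 + j + c) * (4 + j) * (2 + c))) := by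
      have h1 : 1 + (2 + ((1 + j : ℕ):ℚ)) + c = 4 + j + c := by push_cast; ring
      have h2 : 1 + (2 + ((1 + j : ℕ):ℚ)) = 4 + j := by push_cast; ring
      rw [h1, h2]
      push_cast
      field_simp
      ring
    have h2 : 0 ≤ (30 * c + 3 * c ^ 2 + 6 * j * c + 8 * j + 10 * j ^ 2 + 2 * j ^ 3
        + 24 * c * j + 4 * c ^ 2 * j + 10 * c * j ^ 2 + c * j ^ 3 + c ^ 2 * j ^ 2) / (6 * ((4 + j + c) * (4 + j) * (2 + c))) := by
      positivity
    linarith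

lemma V2 (τ a c : ℕ) (hτ : 2 ≤ τ) :
    1 / (2 + a + c : ℚ) + min 1 (1 / (1 + a : ℚ) + 1 / (1 + c : ℚ)) / 2 ≤
      1 / (1 + τ + a + c : ℚ) + τ / 6 + 1 / (2 * (1 + τ + a : ℚ)) + 1 / (2 * (1 + τ + c : ℚ)) := by
  obtain ⟨k, rfl⟩ := Nat.exists_eq_add_of_le hτ
  have hk0 : (0:ℚ) ≤ k := by positivity
  have ha0 : (0:ℚ) ≤ a := by positivity
  have hc0 : (0:ℚ) ≤ c := by positivity
  have hm := min_le_left (1:ℚ) (1 / (1 + a : ℚ) + 1 / (1 + c : ℚ))
  have hm2 := min_le_right (1:ℚ) (1 / (1 + a : ℚ) + 1 / (1 + c : ℚ))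
  rcases Nat.eq_zero_or_pos a with ha | ha
  · subst ha
    have := V2_zero k c hc0
    push_cast at this ⊢
    simp only [add_zero] at this hm ⊢
    linarith
  rcases Nat.eq_zero_or_pos c with hc | hc
  · subst hc
    have := V2_zero k a ha0
    push_cast at this ⊢
    simp only [add_zero] at this hm ⊢
    linarith
  have ha1 : (1:ℚ) ≤ a := by exact_mod_cast ha
  have hc1 : (1:ℚ) ≤ c := by exact_mod_cast hc
  have h1 : 1 / (2 + a + c : ℚ) - 1 / (1 + ((2 + k : ℕ) : ℚ) + a + c) ≤ (1 + (k:ℚ)) / (4 * (5 + k)) := by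
    have e : 1 / (2 + a + c : ℚ) - 1 / (1 + ((2 + k : ℕ) : ℚ) + a + c)
        = (1 + (k:ℚ)) / ((2 + a + c) * (3 + k + a + c)) := by
      have h1 : 1 + ((2 + k : ℕ) : ℚ) + a + c = 3 + k + a + c := by push_cast; ring
      rw [h1]
      field_simp
      ring
    rw [e]
    apply div_le_div_of_nonneg_left (by positivity) (by positivity)
    nlinarith
  have h2 : ∀ x : ℚ, 1 ≤ x → 1 / (1 + x) - 1 / (1 + ((2 + k : ℕ) : ℚ) + x) ≤ (2 + (k:ℚ)) / (2 * (4 + k)) := by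
    intro x hx
    have e : 1 / (1 + x) - 1 / (1 + ((2 + k : ℕ) : ℚ) + x)
        = (2 + (k:ℚ)) / ((1 + x) * (3 + k + x)) := by
      have h1 : 1 + ((2 + k : ℕ) : ℚ) + x = 3 + k + x := by push_cast; ring
      rw [h1]
      field_simp
      ring
    rw [e]
    apply div_le_div_of_nonneg_left (by positivity) (by positivity)
    nlinarith
  have h3 : (1 + (k:ℚ)) / (4 * (5 + k)) + (2 + (k:ℚ)) / (2 * (4 + k)) ≤ ((2 + k : ℕ) : ℚ) / 6 := by
    have e : ((2 + k : ℕ) : ℚ) / 6 - ((1 + (k:ℚ)) / (4 * (5 + k)) + (2 + (k:ℚ)) / (2 * (4 + k)))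
        = (8 + 19 * k + 13 * k ^ 2 + 2 * k ^ 3) / (12 * ((5 + k) * (4 + k))) := by
      push_cast
      field_simp
      ring
    have h4 : 0 ≤ (8 + 19 * (k:ℚ) + 13 * k ^ 2 + 2 * k ^ 3) / (12 * ((5 + k) * (4 + k))) := by positivity
    linarith
  have e1 : 1 / (2 * (1 + ((2 + k : ℕ) : ℚ) + a)) = (1 / (1 + ((2 + k : ℕ) : ℚ) + a)) / 2 := by field_simp
  have e2 : 1 / (2 * (1 + ((2 + k : ℕ) : ℚ) + c)) = (1 / (1 + ((2 + k : ℕ) : ℚ) + c)) / 2 := by field_simp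
  rw [e1, e2]
  have h2a := h2 a ha1
  have h2c := h2 c hc1
  linarith

/-- two special vertices with two apexes, first auxiliary inequality -/
lemma pairS (p b : ℕ) (hb : 2 ≤ b) :
    1 - 1 / (1 + p : ℚ) ≤ 1 / (1 + b : ℚ) + ((p:ℚ) / (1 + b) + ((b:ℚ) - 2) / (1 + p)) / 2 ∧
    (p = 0 → 1 / 3 ≤ 1 / (1 + b : ℚ) + ((p:ℚ) / (1 + b) + ((b:ℚ) - 2) / (1 + p)) / 2) := by
  have hb' : (2:ℚ) ≤ b := by exact_mod_cast hb
  constructor
  · have h1 := rat_cons b p
    have : 1 / (1 + b : ℚ) + ((p:ℚ) / (1 + b) + ((b:ℚ) - 2) / (1 + p)) / 2 - (1 - 1 / (1 + p : ℚ))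
        = ((b:ℚ) - p) * ((b:ℚ) - p - 1) / (2 * ((1 + p) * (1 + b))) := by
      field_simp
      ring
    have h2 : 0 ≤ ((b:ℚ) - p) * ((b:ℚ) - p - 1) / (2 * ((1 + p) * (1 + b))) := by positivity
    linarith
  · intro hp
    subst hp
    have : 1 / (1 + b : ℚ) + (((0:ℕ):ℚ) / (1 + b) + ((b:ℚ) - 2) / (1 + ((0:ℕ):ℚ))) / 2 - 1 / 3
        = ((b:ℚ) - 2) * (3 * b + 1) / (6 * (1 + b)) := by
      push_cast
      field_simp
      ring
    have h2 : 0 ≤ ((b:ℚ) - 2) * (3 * b + 1) / (6 * (1 + b)) := by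
      apply div_nonneg _ (by positivity)
      nlinarith
    linarith

/-- numerical case: swapped apexes at `x` -/
lemma numSwap (a b c d e h : ℕ) (L : ℚ) (hb : 2 ≤ b) (hd : 2 ≤ d)
    (hL : 1 / (3 + a + c : ℚ) + min 1 (1 / (1 + a : ℚ) + 1 / (1 + c : ℚ)) ≤ L) :
    (2:ℚ) ≤ L + 1 / (1 + b + e) + 1 / (1 + d + h)
      + ((a:ℚ) / (1 + b) + ((b:ℚ) - 2) / (1 + a)) / 2 + ((c:ℚ) / (1 + d) + ((d:ℚ) - 2) / (1 + c)) / 2
      + ((e:ℚ) / (1 + h) + (h:ℚ) / (1 + e)) / 2 := by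
  obtain ⟨p1, p1'⟩ := pairS a b hb
  obtain ⟨p2, p2'⟩ := pairS c d hd
  have p3 := absorb b d e h (by omega) (by omega)
  have hpos : 0 ≤ 1 / (3 + a + c : ℚ) := by positivity
  have key : ∀ x : ℚ, 1 ≤ x → 1 / (1 + x) - 1 / (3 + x) ≤ 1 / 4 := by
    intro x hx
    have e : 1 / 4 - (1 / (1 + x) - 1 / (3 + x)) = (x - 1) * (x + 5) / (4 * ((1 + x) * (3 + x))) := by
      field_simp
      ring
    have h2 : 0 ≤ (x - 1) * (x + 5) / (4 * ((1 + x) * (3 + x))) := by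
      apply div_nonneg _ (by positivity)
      nlinarith
    linarith
  rcases Nat.eq_zero_or_pos a with ha | ha
  · subst ha
    have h1 := p1' rfl
    have h3 : min 1 (1 / (1 + ((0:ℕ):ℚ)) + 1 / (1 + c : ℚ)) = 1 := by
      apply min_eq_left
      have : 0 ≤ 1 / (1 + c : ℚ) := by positivity
      simp only [Nat.cast_zero, add_zero, div_one]
      linarith
    rw [h3] at hL
    rcases Nat.eq_zero_or_pos c with hc | hc
    · subst hc
      have h2 := p2' rfl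
      have h4 : 1 / (3 + ((0:ℕ):ℚ) + ((0:ℕ):ℚ)) = 1 / 3 := by norm_num
      rw [h4] at hL
      linarith
    · have hc1 : (1:ℚ) ≤ c := by exact_mod_cast hc
      have h4 := key c hc1
      have h5 : 1 / (3 + ((0:ℕ):ℚ) + (c:ℚ)) = 1 / (3 + c) := by norm_num
      rw [h5] at hL
      linarith
  · have ha1 : (1:ℚ) ≤ a := by exact_mod_cast ha
    rcases Nat.eq_zero_or_pos c with hc | hc
    · subst hc
      have h2 := p2' rfl
      have h3 : min 1 (1 / (1 + (a:ℚ)) + 1 / (1 + ((0:ℕ):ℚ))) = 1 := by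
        apply min_eq_left
        have : 0 ≤ 1 / (1 + a : ℚ) := by positivity
        simp only [Nat.cast_zero, add_zero, div_one]
        linarith
      rw [h3] at hL
      have h4 := key a ha1
      have h5 : 1 / (3 + (a:ℚ) + ((0:ℕ):ℚ)) = 1 / (3 + a) := by norm_num
      rw [h5] at hL
      linarith
    · have hc1 : (1:ℚ) ≤ c := by exact_mod_cast hc
      have hA : 1 / (1 + a : ℚ) ≤ 1 / 2 := by
        apply one_div_le_one_div_of_le (by norm_num); linarith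
      have hC : 1 / (1 + c : ℚ) ≤ 1 / 2 := by
        apply one_div_le_one_div_of_le (by norm_num); linarith
      have h1 : min 1 (1 / (1 + a : ℚ) + 1 / (1 + c : ℚ)) = (1 / (1 + a : ℚ) + 1 / (1 + c : ℚ)) := by
        apply min_eq_right
        linarith
      rw [h1] at hL
      linarith

/-- numerical case: the complete block -/
lemma numK5 (a b c d e h : ℕ) :
    (2:ℚ) ≤ 1 / (3 + a + c) + 1 / (3 + b + e) + 1 / (3 + d + h) + 1
      + ((a:ℚ) / (1 + b) + (b:ℚ) / (1 + a)) / 2 + ((c:ℚ) / (1 + d) + (d:ℚ) / (1 + c)) / 2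
      + ((e:ℚ) / (1 + h) + (h:ℚ) / (1 + e)) / 2 := by
  have p1 := pair0' a b
  have p2 := pair0' c d
  have p3 := pair0' e h
  have key : ∀ x y X Y : ℚ, 0 ≤ x → 0 ≤ y → x ≤ X → y ≤ Y →
      1 / 3 - (1 - 1 / (1 + X)) / 2 - (1 - 1 / (1 + Y)) / 2 ≤ 1 / (3 + x + y) := by
    intro x y X Y hx hy hX hY
    have hX0 : 0 ≤ X := by linarith
    have hY0 : 0 ≤ Y := by linarith
    have h1 : 1 / (3 + X + Y) ≤ 1 / (3 + x + y) := by
      apply one_div_le_one_div_of_le (by positivity); linarith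
    have e : 1 / (3 + X + Y) - (1 / 3 - (1 - 1 / (1 + X)) / 2 - (1 - 1 / (1 + Y)) / 2)
        = (7 * X + 7 * Y + X ^ 2 + Y ^ 2 + 20 * X * Y + 4 * X ^ 2 * Y + 4 * X * Y ^ 2) /
          (6 * ((3 + X + Y) * (1 + X) * (1 + Y))) := by
      field_simp
      ring
    have h2 : 0 ≤ (7 * X + 7 * Y + X ^ 2 + Y ^ 2 + 20 * X * Y + 4 * X ^ 2 * Y + 4 * X * Y ^ 2) /
          (6 * ((3 + X + Y) * (1 + X) * (1 + Y))) := by
      positivity
    linarith
  have ha : (a:ℚ) ≤ (max a b : ℕ) := by exact_mod_cast le_max_left a b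
  have hb : (b:ℚ) ≤ (max a b : ℕ) := by exact_mod_cast le_max_right a b
  have hc : (c:ℚ) ≤ (max c d : ℕ) := by exact_mod_cast le_max_left c d
  have hd : (d:ℚ) ≤ (max c d : ℕ) := by exact_mod_cast le_max_right c d
  have he : (e:ℚ) ≤ (max e h : ℕ) := by exact_mod_cast le_max_left e h
  have hh : (h:ℚ) ≤ (max e h : ℕ) := by exact_mod_cast le_max_right e h
  have k1 := key a c _ _ (by positivity) (by positivity) ha hc
  have k2 := key b e _ _ (by positivity) (by positivity) hb he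
  have k3 := key d h _ _ (by positivity) (by positivity) hd hh
  linarith

lemma F3_two : F 3 2 = 1 / 6 := by
  unfold F
  norm_num

lemma F3_ge (s : ℕ) (hs : 3 ≤ s) : F 3 s = 1 / 3 := by
  unfold F
  rw [min_eq_left hs]
  norm_num

/-- lower bound for the contribution of a triangular pair inside a dense block -/
lemma C3_bound (c s : ℕ) (hs : 2 ≤ s) (hc : s ≤ 2 + c) :
    (1 ≤ c → 1 / 6 + 1 / (2 * (2 + c) : ℚ) ≤ F 3 s / 2 + 1 / (2 * (s:ℚ))) ∧
    (c = 0 → F 3 s / 2 + 1 / (2 * (s:ℚ)) = 1 / 3) := by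
  constructor
  · intro h
    have h1 : (1:ℚ) ≤ c := by exact_mod_cast h
    rcases Nat.eq_or_lt_of_le hs with h2 | h2
    · rw [← h2, F3_two]
      have : 1 / (2 * (2 + c) : ℚ) ≤ 1 / 6 := by
        apply one_div_le_one_div_of_le (by norm_num); linarith
      norm_num
      norm_num at this
      linarith
    · rw [F3_ge s h2]
      have h3 : (s:ℚ) ≤ 2 + c := by exact_mod_cast hc
      have h4 : (0:ℚ) < s := by
        have : 0 < s := by omega
        exact_mod_cast this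
      have : 1 / (2 * (2 + c) : ℚ) ≤ 1 / (2 * (s:ℚ)) := by
        apply one_div_le_one_div_of_le (by positivity); linarith
      linarith
  · intro h
    have h2 : s = 2 := by omega
    rw [h2, F3_two]
    norm_num

lemma B8part (c d s : ℕ) (hd : 1 ≤ d) (hs : 2 ≤ s) (hsc : s ≤ 2 + c) :
    7 / 6 - 1 / (2 + d : ℚ) ≤ 1 / (2 + c : ℚ) + ((c:ℚ) / (1 + d) + ((d:ℚ) - 1) / (1 + c)) / 2
      + (F 3 s / 2 + 1 / (2 * (s:ℚ))) := by
  obtain ⟨k1, k2⟩ := C3_bound c s hs hsc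
  have hd1 : (1:ℚ) ≤ d := by exact_mod_cast hd
  rcases Nat.eq_zero_or_pos c with hc | hc
  · rw [k2 hc]
    subst hc
    have e : 1 / (2 + ((0:ℕ):ℚ)) + (((0:ℕ):ℚ) / (1 + d) + ((d:ℚ) - 1) / (1 + ((0:ℕ):ℚ))) / 2 + 1 / 3
      - (7 / 6 - 1 / (2 + d : ℚ)) = ((d:ℚ) - 1) * (3 * d + 4) / (6 * (2 + d)) := by
      push_cast
      field_simp
      ring
    have h2 : 0 ≤ ((d:ℚ) - 1) * (3 * d + 4) / (6 * (2 + d)) := by
      apply div_nonneg _ (by positivity)
      nlinarith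
    linarith
  · have k := k1 hc
    have hc1 : (1:ℚ) ≤ c := by exact_mod_cast hc
    have e1 : 1 / (2 * (2 + c) : ℚ) = (1 / (2 + c : ℚ)) / 2 := by field_simp
    rw [e1] at k
    have e2 : ((c:ℚ) / (1 + d) + ((d:ℚ) - 1) / (1 + c)) / 2
        = ((c:ℚ) / (1 + d) + (d:ℚ) / (1 + c)) / 2 - 1 / (1 + c : ℚ) / 2 := by ring
    rw [e2]
    have p := pair0' c d
    rcases le_or_gt d c with h | h
    · rw [max_eq_left h] at p
      have h1 : (d:ℚ) ≤ c := by exact_mod_cast h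
      have h2 : 1 / (2 + c : ℚ) ≤ 1 / (2 + d : ℚ) := by
        apply one_div_le_one_div_of_le (by positivity); linarith
      have e3 : 5 / 2 * (1 / (2 + c : ℚ)) - 3 / 2 * (1 / (1 + c : ℚ))
          = (2 * (c:ℚ) - 1) / (2 * ((1 + c) * (2 + c))) := by
        field_simp
        ring
      have h3 : 0 ≤ (2 * (c:ℚ) - 1) / (2 * ((1 + c) * (2 + c))) := by
        apply div_nonneg _ (by positivity)
        linarith
      linarith
    · rw [max_eq_right h.le] at p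
      have h1 : (c:ℚ) + 1 ≤ d := by exact_mod_cast h
      have e3 : 1 / (1 + d : ℚ) - 1 / (2 + d : ℚ) = 1 / ((1 + d) * (2 + d)) := by
        field_simp
        ring
      have h2 : 1 / ((1 + d) * (2 + d) : ℚ) ≤ 1 / ((2 + c) * (3 + c)) := by
        apply one_div_le_one_div_of_le (by positivity)
        nlinarith
      have e4 : 3 / 2 * (1 / (2 + c : ℚ)) - 1 / 2 * (1 / (1 + c : ℚ)) - 1 / ((2 + c) * (3 + c))
          = (2 * (c:ℚ) ^ 2 + 5 * c + 1) / (2 * ((1 + c) * (2 + c) * (3 + c))) := by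
        field_simp
        ring
      have h3 : 0 ≤ (2 * (c:ℚ) ^ 2 + 5 * c + 1) / (2 * ((1 + c) * (2 + c) * (3 + c))) := by
        positivity
      linarith

/-- numerical case: the block with eight triples -/
lemma numB8 (a b c d e h s t : ℕ) (hd : 1 ≤ d) (hh : 1 ≤ h) (hs : 2 ≤ s) (hsc : s ≤ 2 + c)
    (ht : 2 ≤ t) (hte : t ≤ 2 + e) :
    (2:ℚ) ≤ 1 / (2 + a + c) + 1 / (2 + b + e) + 1 / (1 + d + h)
      + ((a:ℚ) / (1 + b) + (b:ℚ) / (1 + a)) / 2 + ((c:ℚ) / (1 + d) + ((d:ℚ) - 1) / (1 + c)) / 2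
      + ((e:ℚ) / (1 + h) + ((h:ℚ) - 1) / (1 + e)) / 2
      + (F 3 s / 2 + 1 / (2 * (s:ℚ))) + (F 3 t / 2 + 1 / (2 * (t:ℚ))) := by
  have p1 := absorb (1 + c) (1 + e) a b (by omega) (by omega)
  have p2 := B8part c d s hd hs hsc
  have p3 := B8part e h t hh ht hte
  have hd1 : (1:ℚ) ≤ d := by exact_mod_cast hd
  have hh1 : (1:ℚ) ≤ h := by exact_mod_cast hh
  have e1 : 1 / (1 + ((1 + c : ℕ) : ℚ)) = 1 / (2 + c) := by congr 1; push_cast; ring
  have e2 : 1 / (1 + ((1 + e : ℕ) : ℚ)) = 1 / (2 + e) := by congr 1; push_cast; ring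
  have e3 : 1 / (1 + ((1 + c : ℕ) : ℚ) + a) = 1 / (2 + a + c) := by congr 1; push_cast; ring
  have e4 : 1 / (1 + ((1 + e : ℕ) : ℚ) + b) = 1 / (2 + b + e) := by congr 1; push_cast; ring
  rw [e1, e2, e3, e4] at p1
  have e5 : 1 / (1 + d + h : ℚ) - (1 / (2 + d : ℚ) + 1 / (2 + h : ℚ) - 1 / 3)
      = ((d:ℚ) - 1) * ((h:ℚ) - 1) * (d + h + 4) / (3 * ((1 + d + h) * (2 + d) * (2 + h))) := by
    field_simp
    ring
  have h3 : 0 ≤ ((d:ℚ) - 1) * ((h:ℚ) - 1) * (d + h + 4) / (3 * ((1 + d + h) * (2 + d) * (2 + h))) := by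
    apply div_nonneg _ (by positivity)
    apply mul_nonneg (mul_nonneg (by linarith) (by linarith)) (by positivity)
  linarith

/-- numerical case: the block with nine triples -/
lemma numB9 (a b c d e h s t : ℕ) (he : 1 ≤ e) (hh : 1 ≤ h) (hs : 2 ≤ s) (hse : s ≤ 1 + e)
    (ht : 2 ≤ t) (hth : t ≤ 1 + h) :
    (2:ℚ) ≤ 1 / (2 + a + c) + 1 / (2 + b + e) + 1 / (2 + d + h)
      + ((a:ℚ) / (1 + b) + (b:ℚ) / (1 + a)) / 2 + ((c:ℚ) / (1 + d) + (d:ℚ) / (1 + c)) / 2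
      + (((e:ℚ) - 1) / (1 + h) + ((h:ℚ) - 1) / (1 + e)) / 2 + 1 / 6
      + (F 3 s / 2 + 1 / (2 * (s:ℚ))) + (F 3 t / 2 + 1 / (2 * (t:ℚ))) := by
  have p1 := absorb (1 + c) (1 + e) a b (by omega) (by omega)
  have p2 := absorb 1 (1 + h) c d (by omega) (by omega)
  have e1 : 1 / (1 + ((1 + c : ℕ) : ℚ)) = 1 / (2 + c) := by congr 1; push_cast; ring
  have e2 : 1 / (1 + ((1 + e : ℕ) : ℚ)) = 1 / (2 + e) := by congr 1; push_cast; ring
  have e3 : 1 / (1 + ((1 + c : ℕ) : ℚ) + a) = 1 / (2 + a + c) := by congr 1; push_cast; ring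
  have e4 : 1 / (1 + ((1 + e : ℕ) : ℚ) + b) = 1 / (2 + b + e) := by congr 1; push_cast; ring
  have e5 : 1 / (1 + ((1 : ℕ) : ℚ)) = 1 / 2 := by norm_num
  have e6 : 1 / (1 + ((1 + h : ℕ) : ℚ)) = 1 / (2 + h) := by congr 1; push_cast; ring
  have e7 : 1 / (1 + ((1 : ℕ) : ℚ) + c) = 1 / (2 + c) := by congr 1; push_cast; ring
  have e8 : 1 / (1 + ((1 + h : ℕ) : ℚ) + d) = 1 / (2 + d + h) := by congr 1; push_cast; ring
  rw [e1, e2, e3, e4] at p1
  rw [e5, e6, e7, e8] at p2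
  have he1 : (1:ℚ) ≤ e := by exact_mod_cast he
  have hh1 : (1:ℚ) ≤ h := by exact_mod_cast hh
  have hcb : ∀ e s : ℕ, 2 ≤ e → 2 ≤ s → s ≤ 1 + e →
      1 / 6 + 1 / (1 + e : ℚ) / 2 ≤ F 3 s / 2 + 1 / (2 * (s:ℚ)) := by
    intro e s h2e h2s hse
    obtain ⟨j, rfl⟩ := Nat.exists_eq_add_of_le h2e
    have := (C3_bound (1 + j) s h2s (by omega)).1 (by omega)
    have e1 : 1 / (2 * (2 + ((1 + j : ℕ) : ℚ))) = 1 / (1 + ((2 + j : ℕ) : ℚ)) / 2 := by
      push_cast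
      field_simp
      ring
    rw [e1] at this
    exact this
  have hc1 : ∀ s : ℕ, 2 ≤ s → s ≤ 2 → F 3 s / 2 + 1 / (2 * (s:ℚ)) = 1 / 3 := by
    intro s h1 h2
    exact (C3_bound 0 s h1 (by omega)).2 rfl
  rcases Nat.eq_or_lt_of_le he with h1 | h1
  · subst h1
    rw [hc1 s hs (by omega)]
    rcases Nat.eq_or_lt_of_le hh with h2 | h2
    · subst h2
      rw [hc1 t ht (by omega)]
      have e9 : 1 / (2 + ((1:ℕ):ℚ)) = 1 / 3 := by norm_num
      rw [e9] at p1 p2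
      simp only [Nat.cast_one, sub_self, zero_div, add_zero]
      simp only [Nat.cast_one] at p1 p2
      linarith
    · have k := hcb h t h2 ht hth
      have hh2 : (2:ℚ) ≤ h := by exact_mod_cast h2
      have e9 : 1 / (2 + ((1:ℕ):ℚ)) = 1 / 3 := by norm_num
      rw [e9] at p1
      simp only [Nat.cast_one, sub_self, zero_div, zero_add]
      simp only [Nat.cast_one] at p1
      have e10 : ((h:ℚ) - 1) / (1 + 1) / 2 + 1 / (2 + h : ℚ) + 1 / (1 + h : ℚ) / 2 - 1 / 2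
          = ((h:ℚ) * (h - 1) * (h + 1) + 2) / (4 * ((1 + h) * (2 + h))) := by
        field_simp
        ring
      have h5 : 0 ≤ ((h:ℚ) * (h - 1) * (h + 1) + 2) / (4 * ((1 + h) * (2 + h))) := by
        apply div_nonneg _ (by positivity)
        have : 0 ≤ (h:ℚ) * (h - 1) * (h + 1) :=
          mul_nonneg (mul_nonneg (by positivity) (by linarith)) (by positivity)
        linarith
      linarith
  · rcases Nat.eq_or_lt_of_le hh with h2 | h2
    · subst h2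
      rw [hc1 t ht (by omega)]
      have k := hcb e s h1 hs hse
      have he2 : (2:ℚ) ≤ e := by exact_mod_cast h1
      have e9 : 1 / (2 + ((1:ℕ):ℚ)) = 1 / 3 := by norm_num
      rw [e9] at p2
      simp only [Nat.cast_one, sub_self, zero_div, add_zero]
      simp only [Nat.cast_one] at p2
      have e10 : ((e:ℚ) - 1) / (1 + 1) / 2 + 1 / (2 + e : ℚ) + 1 / (1 + e : ℚ) / 2 - 1 / 2
          = ((e:ℚ) * (e - 1) * (e + 1) + 2) / (4 * ((1 + e) * (2 + e))) := by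
        field_simp
        ring
      have h5 : 0 ≤ ((e:ℚ) * (e - 1) * (e + 1) + 2) / (4 * ((1 + e) * (2 + e))) := by
        apply div_nonneg _ (by positivity)
        have : 0 ≤ (e:ℚ) * (e - 1) * (e + 1) :=
          mul_nonneg (mul_nonneg (by positivity) (by linarith)) (by positivity)
        linarith
      linarith
    · have k1 := hcb e s h1 hs hse
      have k2 := hcb h t h2 ht hth
      have p3 := pair0' e h
      have e2 : (((e:ℚ) - 1) / (1 + h) + ((h:ℚ) - 1) / (1 + e)) / 2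
        = ((e:ℚ) / (1 + h) + (h:ℚ) / (1 + e)) / 2 - 1 / (1 + h : ℚ) / 2 - 1 / (1 + e : ℚ) / 2 := by ring
      rw [e2]
      have h3 : (e:ℚ) ≤ (max e h : ℕ) := by exact_mod_cast le_max_left e h
      have h4 : (h:ℚ) ≤ (max e h : ℕ) := by exact_mod_cast le_max_right e h
      set m : ℚ := ((max e h : ℕ) : ℚ) with hm
      have hm0 : 0 ≤ m := by rw [hm]; positivity
      have h5 : 1 / (2 + m) ≤ 1 / (2 + e : ℚ) := by
        apply one_div_le_one_div_of_le (by positivity); linarith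
      have h6 : 1 / (2 + m) ≤ 1 / (2 + h : ℚ) := by
        apply one_div_le_one_div_of_le (by positivity); linarith
      have h7 : 1 / (1 + m) ≤ 1 / (2 + m) + 1 / (2 + m) := by
        have : 1 / (2 + m) + 1 / (2 + m) - 1 / (1 + m) = m / ((1 + m) * (2 + m)) := by
          field_simp
          ring
        have h8 : 0 ≤ m / ((1 + m) * (2 + m)) := by positivity
        linarith
      linarith

/-- all numerical cases without two-sided blocks -/
lemma numA (a b c d e h kx ky kz : ℕ) (L M K : ℚ)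
    (hx : (kx = 0 ∧ 1 / (1 + a + c : ℚ) ≤ L) ∨ (kx = 1 ∧ 1 ≤ b ∧ 1 ≤ d ∧
      1 / (2 + a + c : ℚ) + min 1 (1 / (1 + a : ℚ) + 1 / (1 + c : ℚ)) / 2 ≤ L))
    (hy : (ky = 0 ∧ 1 / (1 + b + e : ℚ) ≤ M) ∨ (ky = 1 ∧ 1 ≤ a ∧ 1 ≤ h ∧
      1 / (2 + b + e : ℚ) + min 1 (1 / (1 + b : ℚ) + 1 / (1 + e : ℚ)) / 2 ≤ M))
    (hz : (kz = 0 ∧ 1 / (1 + d + h : ℚ) ≤ K) ∨ (kz = 1 ∧ 1 ≤ c ∧ 1 ≤ e ∧
      1 / (2 + d + h : ℚ) + min 1 (1 / (1 + d : ℚ) + 1 / (1 + h : ℚ)) / 2 ≤ K)) :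
    (2:ℚ) ≤ L + M + K + (((a:ℚ) - ky) / (1 + b) + ((b:ℚ) - kx) / (1 + a)) / 2
      + (((c:ℚ) - kz) / (1 + d) + ((d:ℚ) - kx) / (1 + c)) / 2
      + (((e:ℚ) - kz) / (1 + h) + ((h:ℚ) - ky) / (1 + e)) / 2 := by
  rcases hx with ⟨rfl, hL⟩ | ⟨rfl, hb, hd, hL⟩ <;> rcases hy with ⟨rfl, hM⟩ | ⟨rfl, ha, hh, hM⟩ <;>
    rcases hz with ⟨rfl, hK⟩ | ⟨rfl, hc, he, hK⟩ <;>
    simp only [Nat.cast_zero, Nat.cast_one, sub_zero]
  · have := numA000 a b c d e h
    linarith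
  · have := numA100 h e d c b a K he hc (by rw [add_right_comm, add_comm (1 / (1 + (h:ℚ)))]; exact hK)
    rw [add_right_comm (1:ℚ) e b, add_right_comm (1:ℚ) c a] at this
    linarith
  · have := numA100 b a e h c d M ha hh hM
    rw [add_right_comm (1:ℚ) h d] at this
    linarith
  · have := numA110 e h b a d c M K he hh ha hc
      (by rw [add_right_comm, add_comm (1 / (1 + (e:ℚ)))]; exact hM)
      (by rw [add_right_comm, add_comm (1 / (1 + (h:ℚ)))]; exact hK)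
    linarith
  · have := numA100 a b c d e h L hb hd hL
    linarith
  · have := numA110 c d a b h e L K hc hd hb he
      (by rw [add_right_comm, add_comm (1 / (1 + (c:ℚ)))]; exact hL) hK
    linarith
  · have := numA110 a b c d e h L M ha hb hd hh hL hM
    linarith
  · have := numA111 a b c d e h L M K ha hb hc hd he hh hL hM hK
    linarith

end Pool.Agent.Lib.MP_df5da3_co
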